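import Pool.Agent.Y316.Pisot.Chain

/-!
Contraction of complex vectors; one expanding direction.
-/

set_option autoImplicit false

namespace Pool.Agent.Y316.Pisot
open Pool.Agent.H812R2.PI
open scoped BigOperators

variable {m : ℕ} {L κ K : ℕ}

/-- the action of the incidence matrix on complex vectors -/
noncomputable def cm (τ : Fin (m+1) → List (Fin (m+1))) (x : Fin (m+1) → ℂ) : Fin (m+1) → ℂ :=
  ((inc τ).map (Int.cast : ℤ → ℂ)).mulVec x

/-- the weighted size of the coordinates different from `0` -/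
noncomputable def cn (L : ℕ) (x : Fin (m+1) → ℂ) : ℝ := ∑ j, (g m L j : ℝ) * ‖x j‖

theorem cn_nonneg (L : ℕ) (x : Fin (m+1) → ℂ) : 0 ≤ cn L x :=
  Finset.sum_nonneg fun _ _ => by positivity

theorem cn_sub (L : ℕ) (x y : Fin (m+1) → ℂ) : cn L (x - y) ≤ cn L x + cn L y := by
  unfold cn
  rw [← Finset.sum_add_distrib]
  refine Finset.sum_le_sum fun j _ => ?_
  rw [← mul_add]
  exact mul_le_mul_of_nonneg_left (norm_sub_le _ _) (by positivity)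

theorem cn_smul (L : ℕ) (c : ℂ) (x : Fin (m+1) → ℂ) : cn L (c • x) = ‖c‖ * cn L x := by
  unfold cn
  rw [Finset.mul_sum]
  refine Finset.sum_congr rfl fun j _ => ?_
  rw [Pi.smul_apply, smul_eq_mul, norm_mul]
  ring

theorem eq_zero_of_cn (hL : 1 ≤ L) (x : Fin (m+1) → ℂ) (h0 : x 0 = 0) (h : cn L x ≤ 0) :
    x = 0 := by
  have h1 : cn L x = 0 := le_antisymm h (cn_nonneg L x)
  have h2 := (Finset.sum_eq_zero_iff_of_nonneg (fun j _ => by positivity)).1 h1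
  funext j
  by_cases hj : j = 0
  · rw [hj, h0]; rfl
  · have h3 := h2 j (Finset.mem_univ j)
    have h4 := g_pos (m := m) hL hj
    have h5 : (g m L j : ℝ) ≠ 0 := by positivity
    rcases mul_eq_zero.1 h3 with h6 | h6
    · exact absurd h6 h5
    · simpa using h6

theorem cm_add (τ : Fin (m+1) → List (Fin (m+1))) (x y : Fin (m+1) → ℂ) :
    cm τ (x + y) = cm τ x + cm τ y := Matrix.mulVec_add _ _ _

theorem cm_sub (τ : Fin (m+1) → List (Fin (m+1))) (x y : Fin (m+1) → ℂ) :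
    cm τ (x - y) = cm τ x - cm τ y := Matrix.mulVec_sub _ _ _

theorem cm_smul (τ : Fin (m+1) → List (Fin (m+1))) (c : ℂ) (x : Fin (m+1) → ℂ) :
    cm τ (c • x) = c • cm τ x := Matrix.mulVec_smul _ _ _

theorem cm_comp (σ τ : Fin (m+1) → List (Fin (m+1))) (x : Fin (m+1) → ℂ) :
    cm (comp σ τ) x = cm σ (cm τ x) := by
  unfold cm
  rw [Matrix.mulVec_mulVec, inc_comp]
  congr 1
  exact Matrix.map_mul (f := Int.castRingHom ℂ)

theorem cm_id (x : Fin (m+1) → ℂ) : cm (compList []) x = x := by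
  unfold cm
  simp only [compList]
  rw [JComp_inc_id]
  have : (1 : Matrix (Fin (m+1)) (Fin (m+1)) ℤ).map (Int.cast : ℤ → ℂ) = 1 :=
    Matrix.map_one _ Int.cast_zero Int.cast_one
  rw [this, Matrix.one_mulVec]

theorem sum_g_inc (L : ℕ) (τ : Fin (m+1) → List (Fin (m+1))) (j : Fin (m+1)) :
    ∑ i, (g m L i : ℝ) * ((inc τ i j : ℤ) : ℝ) = wt L (τ j) := by
  have h1 := nv_ab L (τ j)
  have h2 : nv L (ab (τ j)) = ∑ i, (g m L i : ℤ) * inc τ i j := by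
    unfold nv
    refine Finset.sum_congr rfl fun i _ => ?_
    rw [abs_of_nonneg (ab_nonneg _ _)]
    rfl
  rw [h2] at h1
  exact_mod_cast h1

theorem cn_cm_le (L : ℕ) (τ : Fin (m+1) → List (Fin (m+1))) (x : Fin (m+1) → ℂ) :
    cn L (cm τ x) ≤ ∑ j, ‖x j‖ * (wt L (τ j) : ℝ) := by
  have h1 : ∀ i, ‖cm τ x i‖ ≤ ∑ j, ((inc τ i j : ℤ) : ℝ) * ‖x j‖ := by
    intro i
    simp only [cm, Matrix.mulVec, dotProduct, Matrix.map_apply]
    refine (norm_sum_le _ _).trans (Finset.sum_le_sum fun j _ => ?_)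
    rw [norm_mul]
    have h2 : ‖((inc τ i j : ℤ) : ℂ)‖ = ((inc τ i j : ℤ) : ℝ) := by
      rw [Complex.norm_intCast, abs_of_nonneg]
      exact_mod_cast inc_nonneg τ i j
    rw [h2]
  calc cn L (cm τ x) ≤ ∑ i, (g m L i : ℝ) * ∑ j, ((inc τ i j : ℤ) : ℝ) * ‖x j‖ :=
        Finset.sum_le_sum fun i _ => mul_le_mul_of_nonneg_left (h1 i) (by positivity)
    _ = ∑ j, ‖x j‖ * ∑ i, (g m L i : ℝ) * ((inc τ i j : ℤ) : ℝ) := by
        simp only [Finset.mul_sum]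
        rw [Finset.sum_comm]
        exact Finset.sum_congr rfl fun j _ => Finset.sum_congr rfl fun i _ => by ring
    _ = _ := Finset.sum_congr rfl fun j _ => by rw [sum_g_inc]

theorem Dom.cn_cm {τ : Fin (m+1) → List (Fin (m+1))} (h : Dom L κ K τ) (hL : 1 ≤ L) (x : Fin (m+1) → ℂ) :
    2 * cn L (cm τ x) ≤ 2 * (‖x 0‖ * wt L (τ 0)) + cn L x := by
  have h1 := cn_cm_le L τ x
  rw [← Finset.add_sum_erase _ _ (Finset.mem_univ (0 : Fin (m+1)))] at h1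
  have h2 : cn L x = ∑ j ∈ Finset.univ.erase (0 : Fin (m+1)), (g m L j : ℝ) * ‖x j‖ := by
    unfold cn
    rw [← Finset.add_sum_erase _ _ (Finset.mem_univ (0 : Fin (m+1))), g_zero]
    simp
  have h3 : 2 * ∑ j ∈ Finset.univ.erase (0 : Fin (m+1)), ‖x j‖ * (wt L (τ j) : ℝ) ≤
      ∑ j ∈ Finset.univ.erase (0 : Fin (m+1)), (g m L j : ℝ) * ‖x j‖ := by
    rw [Finset.mul_sum]
    refine Finset.sum_le_sum fun j hj => ?_
    have h4 := h.wt_img hL (Finset.ne_of_mem_erase hj)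
    have h5 : 2 * (wt L (τ j) : ℝ) ≤ g m L j := by exact_mod_cast h4
    nlinarith [norm_nonneg (x j)]
  rw [h2]
  linarith

theorem Dom.a_ge {τ : Fin (m+1) → List (Fin (m+1))} (h : Dom L κ K τ) : (K : ℤ) ≤ inc τ 0 0 ∧
    ∀ j, j ≠ 0 → (K : ℤ) * inc τ 0 j ≤ inc τ 0 0 := by
  obtain ⟨A, hA1, hA2, hA3⟩ := h.run
  have h1 : A ≤ (τ 0).count 0 := by
    have := hA3.sublist.count_le 0
    rwa [List.count_replicate_self] at this
  refine ⟨?_, fun j hj => ?_⟩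
  · unfold inc
    exact_mod_cast hA1.trans h1
  · unfold inc
    exact_mod_cast ((Nat.mul_le_mul_left _ List.count_le_length).trans (hA2 j hj)).trans h1

theorem Dom.c2 {τ : Fin (m+1) → List (Fin (m+1))} (h : Dom L κ K τ) (hL : 1 ≤ L) (x : Fin (m+1) → ℂ) :
    K * ‖cm τ x 0 - ((inc τ 0 0 : ℤ) : ℂ) * x 0‖ ≤ ((inc τ 0 0 : ℤ) : ℝ) * cn L x := by
  obtain ⟨ha1, ha2⟩ := h.a_ge
  have h1 : cm τ x 0 - ((inc τ 0 0 : ℤ) : ℂ) * x 0 =
      ∑ j ∈ Finset.univ.erase (0 : Fin (m+1)), ((inc τ 0 j : ℤ) : ℂ) * x j := by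
    simp only [cm, Matrix.mulVec, dotProduct, Matrix.map_apply]
    rw [← Finset.add_sum_erase _ _ (Finset.mem_univ (0 : Fin (m+1)))]
    ring
  have h2 : cn L x = ∑ j ∈ Finset.univ.erase (0 : Fin (m+1)), (g m L j : ℝ) * ‖x j‖ := by
    unfold cn
    rw [← Finset.add_sum_erase _ _ (Finset.mem_univ (0 : Fin (m+1))), g_zero]
    simp
  have ha0 : (0 : ℝ) ≤ ((inc τ 0 0 : ℤ) : ℝ) := by exact_mod_cast inc_nonneg τ 0 0
  rw [h1, h2, Finset.mul_sum]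
  refine (mul_le_mul_of_nonneg_left (norm_sum_le _ _) (Nat.cast_nonneg _)).trans ?_
  rw [Finset.mul_sum]
  refine Finset.sum_le_sum fun j hj => ?_
  have hj' := Finset.ne_of_mem_erase hj
  have h3 : ‖((inc τ 0 j : ℤ) : ℂ)‖ = ((inc τ 0 j : ℤ) : ℝ) := by
    rw [Complex.norm_intCast, abs_of_nonneg]
    exact_mod_cast inc_nonneg τ 0 j
  rw [norm_mul, h3]
  have h4 : (K : ℝ) * ((inc τ 0 j : ℤ) : ℝ) ≤ ((inc τ 0 0 : ℤ) : ℝ) := by
    exact_mod_cast ha2 j hj'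
  have h5 : (1 : ℝ) ≤ g m L j := by exact_mod_cast g_pos (m := m) hL hj'
  calc (K : ℝ) * (((inc τ 0 j : ℤ) : ℝ) * ‖x j‖) = K * ((inc τ 0 j : ℤ) : ℝ) * ‖x j‖ := by ring
    _ ≤ ((inc τ 0 0 : ℤ) : ℝ) * ‖x j‖ := mul_le_mul_of_nonneg_right h4 (norm_nonneg _)
    _ ≤ ((inc τ 0 0 : ℤ) : ℝ) * ((g m L j : ℝ) * ‖x j‖) := by
      refine mul_le_mul_of_nonneg_left ?_ ha0
      nlinarith [norm_nonneg (x j)]

/-- the cone -/
def Dc (L G : ℕ) (x : Fin (m+1) → ℂ) : Prop := cn L x ≤ 4 * G * ‖x 0‖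

/-- the part of `x` after the removal of the direction `u` -/
noncomputable def ex (u x : Fin (m+1) → ℂ) : Fin (m+1) → ℂ := x - (x 0 / u 0) • u

section steps
variable {G : ℕ} {τ : Fin (m+1) → List (Fin (m+1))}

theorem d_step (h : Dom L κ K τ) (hL : 1 ≤ L) (hG : G = (κ + 1) * (2 * L) ^ m)
    (hK : 64 * G ≤ K) (x : Fin (m+1) → ℂ) (hx : Dc L G x) :
    15 / 16 * ((inc τ 0 0 : ℤ) : ℝ) * ‖x 0‖ ≤ ‖cm τ x 0‖ ∧ cn L (cm τ x) ≤ 3 * G * ‖x 0‖ ∧
      Dc L G (cm τ x) := by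
  have hG1 : 1 ≤ G := by
    rw [hG]
    exact Nat.mul_pos (by omega) (Nat.pow_pos (by omega))
  have hG1r : (1 : ℝ) ≤ G := by exact_mod_cast hG1
  obtain ⟨ha1, -⟩ := h.a_ge
  have hKr : (64 : ℝ) * G ≤ K := by exact_mod_cast hK
  have hK0 : (0 : ℝ) < K := by linarith
  have ha : (K : ℝ) ≤ ((inc τ 0 0 : ℤ) : ℝ) := by exact_mod_cast ha1
  obtain ⟨a, ha'⟩ : ∃ a, a = ((inc τ 0 0 : ℤ) : ℝ) := ⟨_, rfl⟩
  rw [← ha'] at ha ⊢
  have h2 := h.c2 hL x
  rw [← ha'] at h2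
  unfold Dc at hx ⊢
  have hn := norm_nonneg (x 0)
  have h3 : a * cn L x ≤ K * (a / 16 * ‖x 0‖) := by
    have h4 : a * cn L x ≤ a * (4 * G * ‖x 0‖) := mul_le_mul_of_nonneg_left hx (by linarith)
    have h5 : a * (4 * G * ‖x 0‖) ≤ K * (a / 16 * ‖x 0‖) := by
      have h6 : 0 ≤ a * ‖x 0‖ := mul_nonneg (by linarith) hn
      nlinarith
    exact h4.trans h5
  have h4 := le_of_mul_le_mul_left (h2.trans h3) hK0
  have h5 : ‖((inc τ 0 0 : ℤ) : ℂ) * x 0‖ = a * ‖x 0‖ := by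
    rw [norm_mul, Complex.norm_intCast, abs_of_nonneg (by rw [← ha']; linarith), ← ha']
  have h6 : 15 / 16 * a * ‖x 0‖ ≤ ‖cm τ x 0‖ := by
    have h7 := norm_sub_norm_le (((inc τ 0 0 : ℤ) : ℂ) * x 0) (cm τ x 0)
    rw [norm_sub_rev, h5] at h7
    linarith
  have h7 : cn L (cm τ x) ≤ 3 * G * ‖x 0‖ := by
    have h8 := h.cn_cm hL x
    have h9 : (wt L (τ 0) : ℝ) ≤ G := by rw [hG]; exact_mod_cast h.wt_img_le hL 0
    have h10 := mul_le_mul_of_nonneg_left h9 hn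
    linarith
  refine ⟨h6, h7, h7.trans ?_⟩
  have h8 : 3 * (G : ℝ) * ‖x 0‖ ≤ 4 * G * (15 / 16 * a * ‖x 0‖) := by
    have h9 : (1 : ℝ) ≤ a := by linarith
    have h10 : 0 ≤ (G : ℝ) * ‖x 0‖ := by positivity
    nlinarith
  exact h8.trans (mul_le_mul_of_nonneg_left h6 (by positivity))

theorem n_step (h : Dom L κ K τ) (hL : 1 ≤ L) (hG : G = (κ + 1) * (2 * L) ^ m)
    (x : Fin (m+1) → ℂ) (hx : ¬ Dc L G x) : cn L (cm τ x) ≤ 3 / 4 * cn L x := by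
  unfold Dc at hx
  push Not at hx
  have hn := norm_nonneg (x 0)
  have h8 := h.cn_cm hL x
  have h9 : (wt L (τ 0) : ℝ) ≤ G := by rw [hG]; exact_mod_cast h.wt_img_le hL 0
  have h10 := mul_le_mul_of_nonneg_left h9 hn
  linarith

theorem ex_zero {u : Fin (m+1) → ℂ} (hu : u 0 ≠ 0) (x : Fin (m+1) → ℂ) : ex u x 0 = 0 := by
  simp only [ex, Pi.sub_apply, Pi.smul_apply, smul_eq_mul]
  field_simp
  ring

theorem ex_cm (u x : Fin (m+1) → ℂ) (hu : u 0 ≠ 0) (hu' : cm τ u 0 ≠ 0) :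
    ex (cm τ u) (cm τ x) = ex (cm τ u) (cm τ (ex u x)) := by
  have h1 : cm τ (ex u x) = cm τ x - (x 0 / u 0) • cm τ u := by
    rw [ex, cm_sub, cm_smul]
  rw [h1]
  funext j
  simp only [ex, Pi.sub_apply, Pi.smul_apply, smul_eq_mul]
  field_simp
  ring

theorem q_step (h : Dom L κ K τ) (hL : 1 ≤ L) (hG : G = (κ + 1) * (2 * L) ^ m)
    (hK : 64 * G ≤ K) (u x : Fin (m+1) → ℂ) (hu : Dc L G u) (hu0 : u 0 ≠ 0) :
    cm τ u 0 ≠ 0 ∧ cn L (ex (cm τ u) (cm τ x)) ≤ 3 / 5 * cn L (ex u x) := by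
  have hG1 : 1 ≤ G := by
    rw [hG]
    exact Nat.mul_pos (by omega) (Nat.pow_pos (by omega))
  have hG1r : (1 : ℝ) ≤ G := by exact_mod_cast hG1
  obtain ⟨ha1, -⟩ := h.a_ge
  have hKr : (64 : ℝ) * G ≤ K := by exact_mod_cast hK
  have hK0 : (0 : ℝ) < K := by linarith
  have ha : (K : ℝ) ≤ ((inc τ 0 0 : ℤ) : ℝ) := by exact_mod_cast ha1
  obtain ⟨h1, h2, -⟩ := d_step h hL hG hK u hu
  obtain ⟨x', hx'⟩ : ∃ x', x' = ex u x := ⟨_, rfl⟩
  have hx0 : x' 0 = 0 := by rw [hx']; exact ex_zero hu0 x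
  have h3 := h.c2 hL x'
  rw [hx0, mul_zero, sub_zero] at h3
  have h4 := h.cn_cm hL x'
  rw [hx0, norm_zero, zero_mul, mul_zero, zero_add] at h4
  obtain ⟨a, ha'⟩ : ∃ a, a = ((inc τ 0 0 : ℤ) : ℝ) := ⟨_, rfl⟩
  rw [← ha'] at ha h1 h3
  have hn : 0 < ‖u 0‖ := norm_pos_iff.2 hu0
  have ha0 : 0 < a := by linarith
  have h5 : 0 < ‖cm τ u 0‖ := lt_of_lt_of_le (by positivity) h1
  have h6 : cm τ u 0 ≠ 0 := norm_pos_iff.1 h5
  refine ⟨h6, ?_⟩
  rw [ex_cm u x hu0 h6, ← hx']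
  have h7 : cn L (ex (cm τ u) (cm τ x')) ≤
      cn L (cm τ x') + ‖cm τ x' 0‖ / ‖cm τ u 0‖ * cn L (cm τ u) := by
    unfold ex
    refine (cn_sub L _ _).trans ?_
    rw [cn_smul, norm_div]
  have h8 : ‖cm τ x' 0‖ / ‖cm τ u 0‖ * cn L (cm τ u) ≤ 1 / 20 * cn L x' := by
    rw [div_mul_eq_mul_div, div_le_iff₀ h5]
    have hc := cn_nonneg L x'
    have h9 : K * (‖cm τ x' 0‖ * cn L (cm τ u)) ≤ K * (1 / 20 * cn L x' * ‖cm τ u 0‖) := by
      calc K * (‖cm τ x' 0‖ * cn L (cm τ u)) = K * ‖cm τ x' 0‖ * cn L (cm τ u) := by ring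
        _ ≤ (a * cn L x') * (3 * G * ‖u 0‖) :=
          mul_le_mul h3 h2 (cn_nonneg L _) (by positivity)
        _ ≤ K * (1 / 20 * cn L x' * (15 / 16 * a * ‖u 0‖)) := by
          have h10 : 0 ≤ a * cn L x' * ‖u 0‖ := by positivity
          nlinarith
        _ ≤ _ := by
          refine mul_le_mul_of_nonneg_left ?_ hK0.le
          exact mul_le_mul_of_nonneg_left h1 (by positivity)
    exact le_of_mul_le_mul_left h9 hK0
  linarith [cn_nonneg L x']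

end steps

section lists
variable {G : ℕ}

theorem cm_cons (τ : Fin (m+1) → List (Fin (m+1))) (l : List (Fin (m+1) → List (Fin (m+1))))
    (x : Fin (m+1) → ℂ) : cm (compList (τ :: l)) x = cm τ (cm (compList l) x) := by
  simp only [compList]
  exact cm_comp _ _ _

theorem d_list (hL : 1 ≤ L) (hG : G = (κ + 1) * (2 * L) ^ m) (hK : 64 * G ≤ K)
    (l : List (Fin (m+1) → List (Fin (m+1)))) (hl : ∀ τ ∈ l, Dom L κ K τ)
    (x : Fin (m+1) → ℂ) (hx : Dc L G x) : Dc L G (cm (compList l) x) := by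
  induction l with
  | nil => rw [cm_id]; exact hx
  | cons τ l ih =>
    rw [cm_cons]
    exact (d_step (hl τ (List.mem_cons_self ..)) hL hG hK _
      (ih fun τ' h => hl τ' (List.mem_cons_of_mem _ h))).2.2

theorem n_list (hL : 1 ≤ L) (hG : G = (κ + 1) * (2 * L) ^ m) (hK : 64 * G ≤ K)
    (l : List (Fin (m+1) → List (Fin (m+1)))) (hl : ∀ τ ∈ l, Dom L κ K τ)
    (x : Fin (m+1) → ℂ) : Dc L G (cm (compList l) x) ∨
      cn L (cm (compList l) x) ≤ (3 / 4) ^ l.length * cn L x := by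
  induction l with
  | nil => right; rw [cm_id]; simp
  | cons τ l ih =>
    have ih := ih fun τ' h => hl τ' (List.mem_cons_of_mem _ h)
    have hτ := hl τ (List.mem_cons_self ..)
    rw [cm_cons]
    by_cases hd : Dc L G (cm (compList l) x)
    · left
      exact (d_step hτ hL hG hK _ hd).2.2
    · right
      have h1 := n_step hτ hL hG _ hd
      rcases ih with h | h
      · exact absurd h hd
      · rw [List.length_cons, pow_succ]
        linarith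

theorem q_list (hL : 1 ≤ L) (hG : G = (κ + 1) * (2 * L) ^ m) (hK : 64 * G ≤ K)
    (l : List (Fin (m+1) → List (Fin (m+1)))) (hl : ∀ τ ∈ l, Dom L κ K τ)
    (u x : Fin (m+1) → ℂ) (hu : Dc L G u) (hu0 : u 0 ≠ 0) :
    cm (compList l) u 0 ≠ 0 ∧
      cn L (ex (cm (compList l) u) (cm (compList l) x)) ≤ (3 / 5) ^ l.length * cn L (ex u x) := by
  induction l with
  | nil => rw [cm_id, cm_id]; simp [hu0]
  | cons τ l ih =>
    have hl' : ∀ τ ∈ l, Dom L κ K τ := fun τ' h => hl τ' (List.mem_cons_of_mem _ h)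
    have hτ := hl τ (List.mem_cons_self ..)
    obtain ⟨h1, h2⟩ := ih hl'
    rw [cm_cons, cm_cons]
    obtain ⟨h3, h4⟩ := q_step hτ hL hG hK _ (cm (compList l) x) (d_list hL hG hK l hl' u hu) h1
    refine ⟨h3, h4.trans ?_⟩
    rw [List.length_cons, pow_succ]
    linarith

end lists

end Pool.Agent.Y316.Pisot
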