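import Pool.Agent.Y316.Pisot.Ht

/-!
An overlapping pair of edges `0` whose offset has coordinate `0` equal to `0` leads to a common
edge.
-/

set_option autoImplicit false

namespace Pool.Agent.Y316.Pisot
open Pool.Agent.H812R2.PI
open scoped BigOperators

variable {m : ℕ} {L κ K : ℕ}

theorem ab_replicate (k : ℕ) :
    ab (List.replicate k (0 : Fin (m+1))) = (k : ℤ) • (ev 0 : Fin (m+1) → ℤ) := by
  induction k with
  | zero => simp [ab_nil]
  | succ k ih =>
    rw [List.replicate_succ, ab_cons, ih]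
    push_cast
    rw [add_smul, one_smul]
    exact add_comm _ _

theorem run_edge (z : Fin (m+1) → ℤ) (s t : List (Fin (m+1))) (N i : ℕ) (hi : i < N) :
    (z + ab s + (i : ℤ) • ev 0, (0 : Fin (m+1))) ∈
      edges z (s ++ List.replicate N (0 : Fin (m+1)) ++ t) := by
  have h1 : s ++ List.replicate N (0 : Fin (m+1)) ++ t =
      (s ++ List.replicate i (0 : Fin (m+1))) ++
        0 :: (List.replicate (N - i - 1) (0 : Fin (m+1)) ++ t) := by
    have h2 : List.replicate N (0 : Fin (m+1)) =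
        List.replicate i (0 : Fin (m+1)) ++ (0 :: List.replicate (N - i - 1) (0 : Fin (m+1))) := by
      rw [← List.replicate_succ, List.replicate_append_replicate]
      congr 1
      omega
    rw [h2]
    simp
  rw [h1, edges_append, List.mem_append]
  right
  rw [ab_append, ab_replicate, ← add_assoc]
  exact List.mem_cons_self ..

theorem coord0 {τ : Fin (m+1) → List (Fin (m+1))} (hL : 1 ≤ L) (A : ℕ)
    (hA : ∀ j, j ≠ 0 → K * (τ j).length ≤ A)
    (v : Fin (m+1) → ℤ) (hv : v 0 = 0) : K * |(inc τ).mulVec v 0| ≤ A * nv L v := by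
  simp only [Matrix.mulVec, dotProduct]
  have h1 : ∀ j, K * |inc τ 0 j * v j| ≤ A * ((g m L j : ℤ) * |v j|) := by
    intro j
    by_cases hj : j = 0
    · rw [hj, hv]
      simp [g_zero]
    · rw [abs_mul, abs_of_nonneg (inc_nonneg τ 0 j)]
      have h2 : K * inc τ 0 j ≤ A := by
        have h3 : K * (τ j).count 0 ≤ A :=
          (Nat.mul_le_mul_left _ List.count_le_length).trans (hA j hj)
        unfold inc
        exact_mod_cast h3
      have h4 : (1 : ℤ) ≤ g m L j := by exact_mod_cast g_pos (m := m) hL hj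
      have h5 := abs_nonneg (v j)
      have h6 : (0 : ℤ) ≤ A := by positivity
      calc K * (inc τ 0 j * |v j|) = K * inc τ 0 j * |v j| := by ring
        _ ≤ A * |v j| := mul_le_mul_of_nonneg_right h2 h5
        _ ≤ A * ((g m L j : ℤ) * |v j|) := by
          refine mul_le_mul_of_nonneg_left ?_ h6
          nlinarith
  refine (mul_le_mul_of_nonneg_left (Finset.abs_sum_le_sum_abs _ _) (by positivity)).trans ?_
  rw [Finset.mul_sum]
  refine (Finset.sum_le_sum fun j _ => h1 j).trans ?_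
  rw [← Finset.mul_sum]
  exact le_refl _

/-- one step -/
theorem chain_step {τ : Fin (m+1) → List (Fin (m+1))} (h : Dom L κ K τ) (hL : 1 ≤ L)
    (x y : Fin (m+1) → ℤ) (hv : (y - x) 0 = 0) (hn : nv L (y - x) < K) :
    ∃ e ∈ edges ((inc τ).mulVec x) (τ 0), ∃ f ∈ edges ((inc τ).mulVec y) (τ 0),
      e.2 = 0 ∧ f.2 = 0 ∧ (f.1 - e.1) 0 = 0 ∧ 2 * nv L (f.1 - e.1) ≤ nv L (y - x) := by
  obtain ⟨A, hA1, hA2, p, s, hps⟩ := h.run
  have hK0 : (0 : ℤ) < K := (nv_nonneg L (y - x)).trans_lt hn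
  have hA0 : (0 : ℤ) < A := by
    have : (K : ℤ) ≤ A := by exact_mod_cast hA1
    linarith
  have h1 : |(inc τ).mulVec (y - x) 0| < A := by
    have h2 := coord0 hL A hA2 (y - x) hv
    have h3 : (A : ℤ) * nv L (y - x) < A * K := mul_lt_mul_of_pos_left hn hA0
    have h4 : (K : ℤ) * |(inc τ).mulVec (y - x) 0| < K * A := by linarith
    exact lt_of_mul_lt_mul_left h4 hK0.le
  obtain ⟨t, ht⟩ : ∃ t, t = (inc τ).mulVec (y - x) 0 := ⟨_, rfl⟩
  rw [← ht] at h1
  have h2 := abs_lt.1 h1
  have h3 := h.nv_mulVec hL (y - x)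
  rw [hv] at h3
  simp only [abs_zero, zero_mul, mul_zero, zero_add] at h3
  have key : ∀ i j : ℕ, i < A → j < A → (i : ℤ) - j = t →
      ∃ e ∈ edges ((inc τ).mulVec x) (τ 0), ∃ f ∈ edges ((inc τ).mulVec y) (τ 0),
      e.2 = 0 ∧ f.2 = 0 ∧ (f.1 - e.1) 0 = 0 ∧ 2 * nv L (f.1 - e.1) ≤ nv L (y - x) := by
    intro i j hi hj hij
    have e1 := run_edge ((inc τ).mulVec x) p s A i hi
    have e2 := run_edge ((inc τ).mulVec y) p s A j hj
    rw [hps] at e1 e2
    have h4 : (inc τ).mulVec y + ab p + (j : ℤ) • ev 0 -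
        ((inc τ).mulVec x + ab p + (i : ℤ) • ev 0) =
        (inc τ).mulVec (y - x) + (-t) • ev 0 := by
      rw [Matrix.mulVec_sub, ← hij, neg_sub, sub_smul]
      abel
    refine ⟨_, e1, _, e2, rfl, rfl, ?_, ?_⟩
    · simp only [h4]
      rw [Pi.add_apply, ← ht]
      simp [ev]
    · simp only [h4]
      rw [nv_of_ne L _ ((inc τ).mulVec (y - x)) (by
        intro j hj
        rw [Pi.add_apply]
        simp [ev, hj])]
      exact h3
  rcases le_total 0 t with h5 | h5
  · exact key t.toNat 0 (by omega) (by omega) (by omega)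
  · exact key 0 (-t).toNat (by omega) (by omega) (by omega)

theorem chain (hL : 1 ≤ L) (l : List (Fin (m+1) → List (Fin (m+1))))
    (hl : ∀ τ ∈ l, Dom L κ K τ) (x y : Fin (m+1) → ℤ) (hv : (y - x) 0 = 0)
    (hn : nv L (y - x) < K) :
    ∃ e ∈ edges ((inc (compList l)).mulVec x) (compList l 0),
      ∃ f ∈ edges ((inc (compList l)).mulVec y) (compList l 0),
      e.2 = 0 ∧ f.2 = 0 ∧ (f.1 - e.1) 0 = 0 ∧ 2 ^ l.length * nv L (f.1 - e.1) ≤ nv L (y - x) := by
  induction l with
  | nil =>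
    refine ⟨(x, 0), ?_, (y, 0), ?_, rfl, rfl, hv, ?_⟩
    · simp [compList, JComp_inc_id, Matrix.one_mulVec, edges]
    · simp [compList, JComp_inc_id, Matrix.one_mulVec, edges]
    · simp
  | cons τ l ih =>
    obtain ⟨e, he, f, hf, he2, hf2, h1, h2⟩ := ih fun τ' h => hl τ' (List.mem_cons_of_mem _ h)
    have hτ := hl τ (List.mem_cons_self ..)
    have hnn := nv_nonneg L (f.1 - e.1)
    have h3 : (1 : ℤ) ≤ 2 ^ l.length := one_le_pow₀ (by norm_num)
    have h4 : nv L (f.1 - e.1) ≤ nv L (y - x) := by nlinarith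
    obtain ⟨e', he', f', hf', he2', hf2', h6, h7⟩ := chain_step hτ hL e.1 f.1 h1
      (h4.trans_lt hn)
    refine ⟨e', ?_, f', ?_, he2', hf2', h6, ?_⟩
    · simp only [compList, inc_comp, comp]
      rw [← Matrix.mulVec_mulVec]
      refine JComp_mem he ?_
      rw [he2]
      exact he'
    · simp only [compList, inc_comp, comp]
      rw [← Matrix.mulVec_mulVec]
      refine JComp_mem hf ?_
      rw [hf2]
      exact hf'
    · rw [List.length_cons, pow_succ]
      nlinarith

end Pool.Agent.Y316.Pisot
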