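import Pool.Agent.Y316.Pisot.Wt
import Pool.Agent.H812R2.PI.JComp

/-!
Heights and overlaps for positive functionals; contraction of the offsets.
-/

set_option autoImplicit false

namespace Pool.Agent.Y316.Pisot
open Pool.Agent.H812R2.PI
open scoped BigOperators

variable {m : ℕ}

/-- the height of a vector -/
noncomputable def hh (φ : Fin (m+1) → ℝ) (v : Fin (m+1) → ℤ) : ℝ := ∑ i, φ i * (v i : ℝ)

/-- the functional pulled back by a substitution -/
noncomputable def pull (φ : Fin (m+1) → ℝ) (τ : Fin (m+1) → List (Fin (m+1))) :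
    Fin (m+1) → ℝ := fun j => hh φ (ab (τ j))

/-- functionals which give small heights to the letters different from `0` -/
structure Ph (K : ℕ) (φ : Fin (m+1) → ℝ) : Prop where
  pos : ∀ i, 0 < φ i
  small : ∀ j, j ≠ 0 → (K : ℝ) * φ j ≤ φ 0

/-- the edges `e` and `f` overlap -/
def Ov (φ : Fin (m+1) → ℝ) (e f : (Fin (m+1) → ℤ) × Fin (m+1)) : Prop :=
  hh φ (f.1 - e.1) < φ e.2 ∧ -φ f.2 < hh φ (f.1 - e.1)

theorem hh_add (φ : Fin (m+1) → ℝ) (v w : Fin (m+1) → ℤ) : hh φ (v + w) = hh φ v + hh φ w := by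
  simp [hh, mul_add, Finset.sum_add_distrib]

theorem hh_neg (φ : Fin (m+1) → ℝ) (v : Fin (m+1) → ℤ) : hh φ (-v) = -hh φ v := by
  simp [hh]

theorem hh_sub (φ : Fin (m+1) → ℝ) (v w : Fin (m+1) → ℤ) : hh φ (v - w) = hh φ v - hh φ w := by
  rw [sub_eq_add_neg, hh_add, hh_neg]; ring

theorem hh_zero (φ : Fin (m+1) → ℝ) : hh φ 0 = 0 := by simp [hh]

theorem hh_ev (φ : Fin (m+1) → ℝ) (a : Fin (m+1)) : hh φ (ev a) = φ a := by simp [hh, ev]

theorem hh_mulVec (φ : Fin (m+1) → ℝ) (τ : Fin (m+1) → List (Fin (m+1)))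
    (v : Fin (m+1) → ℤ) : hh φ ((inc τ).mulVec v) = hh (pull φ τ) v := by
  simp only [hh, pull, Matrix.mulVec, dotProduct, Int.cast_sum, Int.cast_mul, Finset.mul_sum,
    Finset.sum_mul]
  rw [Finset.sum_comm]
  refine Finset.sum_congr rfl fun j _ => Finset.sum_congr rfl fun i _ => ?_
  simp only [inc, ab]
  ring

theorem pull_comp (φ : Fin (m+1) → ℝ) (σ τ : Fin (m+1) → List (Fin (m+1))) :
    pull φ (comp σ τ) = pull (pull φ σ) τ := by
  funext j
  simp only [pull, comp]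
  rw [ab_ext, hh_mulVec]

theorem hh_ab_nonneg {φ : Fin (m+1) → ℝ} (hφ : ∀ i, 0 < φ i) (w : List (Fin (m+1))) :
    0 ≤ hh φ (ab w) := by
  induction w with
  | nil => rw [ab_nil, hh_zero]
  | cons a w ih => rw [ab_cons, hh_add, hh_ev]; linarith [hφ a]

theorem hh_take_succ {φ : Fin (m+1) → ℝ} (w : List (Fin (m+1))) (k : ℕ) (hk : k < w.length) :
    hh φ (ab (w.take (k+1))) = hh φ (ab (w.take k)) + φ w[k] := by
  rw [List.take_succ_eq_append_getElem hk, ab_append, hh_add, ab_single, hh_ev]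

theorem hh_split {φ : Fin (m+1) → ℝ} (w : List (Fin (m+1))) (k : ℕ) :
    hh φ (ab w) = hh φ (ab (w.take k)) + hh φ (ab (w.drop k)) := by
  conv_lhs => rw [← List.take_append_drop k w]
  rw [ab_append, hh_add]

theorem hh_take_le {φ : Fin (m+1) → ℝ} (hφ : ∀ i, 0 < φ i) (w : List (Fin (m+1))) (k : ℕ)
    (hk : k < w.length) : hh φ (ab (w.take k)) + φ w[k] ≤ hh φ (ab w) := by
  rw [← hh_take_succ w k hk, hh_split w (k+1)]
  linarith [hh_ab_nonneg hφ (w.drop (k+1))]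

/-- overlapping children have overlapping parents -/
theorem Ov.parent {φ : Fin (m+1) → ℝ} (hφ : ∀ i, 0 < φ i) {τ : Fin (m+1) → List (Fin (m+1))}
    {e' f' e f : (Fin (m+1) → ℤ) × Fin (m+1)}
    (he : e ∈ edges ((inc τ).mulVec e'.1) (τ e'.2)) (hf : f ∈ edges ((inc τ).mulVec f'.1) (τ f'.2))
    (h : Ov φ e f) : Ov (pull φ τ) e' f' := by
  obtain ⟨k, hk, rfl⟩ := mem_edges.1 he
  obtain ⟨l, hl, rfl⟩ := mem_edges.1 hf
  have h1 := hh_take_le hφ _ _ hk
  have h2 := hh_take_le hφ _ _ hl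
  have h3 := hh_ab_nonneg hφ ((τ e'.2).take k)
  have h4 := hh_ab_nonneg hφ ((τ f'.2).take l)
  have h5 : hh φ ((inc τ).mulVec f'.1 + ab ((τ f'.2).take l) -
      ((inc τ).mulVec e'.1 + ab ((τ e'.2).take k))) =
      hh (pull φ τ) (f'.1 - e'.1) + hh φ (ab ((τ f'.2).take l)) -
        hh φ (ab ((τ e'.2).take k)) := by
    rw [hh_sub, hh_add, hh_add, hh_mulVec, hh_mulVec, hh_sub]
    ring
  unfold Ov at h ⊢
  simp only at h
  rw [h5] at h
  obtain ⟨ha, hb⟩ := h
  constructor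
  · change _ < hh φ (ab (τ e'.2))
    linarith
  · change -(hh φ (ab (τ f'.2))) < _
    linarith

section ph
variable {L κ K : ℕ} {φ : Fin (m+1) → ℝ} {τ : Fin (m+1) → List (Fin (m+1))}

theorem Ph.le (h : Ph K φ) (hK : 1 ≤ K) (i : Fin (m+1)) : φ i ≤ φ 0 := by
  by_cases hi : i = 0
  · rw [hi]
  · have h1 := h.small i hi
    have h2 : (1 : ℝ) ≤ K := by exact_mod_cast hK
    have h4 := h.pos i
    nlinarith

theorem hh_word_le (hle : ∀ i, φ i ≤ φ 0) (w : List (Fin (m+1))) :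
    hh φ (ab w) ≤ w.length * φ 0 := by
  induction w with
  | nil => simp [ab_nil, hh_zero]
  | cons a w ih =>
    rw [ab_cons, hh_add, hh_ev, List.length_cons]
    push_cast
    linarith [hle a]

theorem hh_replicate (k : ℕ) : hh φ (ab (List.replicate k (0 : Fin (m+1)))) = k * φ 0 := by
  induction k with
  | zero => simp [ab_nil, hh_zero]
  | succ k ih =>
    rw [List.replicate_succ, ab_cons, hh_add, hh_ev, ih]
    push_cast
    ring

theorem Dom.pull (h : Dom L κ K τ) (hpos : ∀ i, 0 < φ i) (hle : ∀ i, φ i ≤ φ 0) :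
    Ph K (pull φ τ) := by
  constructor
  · intro j
    obtain ⟨a, w, hw⟩ := List.exists_cons_of_ne_nil (h.ne j)
    change 0 < hh φ (ab (τ j))
    rw [hw, ab_cons, hh_add, hh_ev]
    linarith [hpos a, hh_ab_nonneg hpos w]
  · intro j hj
    change (K : ℝ) * hh φ (ab (τ j)) ≤ hh φ (ab (τ 0))
    have h1 := hh_word_le hle (τ j)
    obtain ⟨A, hA1, hA2, x, y, hxy⟩ := h.run
    have h2 : (K : ℝ) * (τ j).length ≤ A := by exact_mod_cast hA2 j hj
    have h0 := (hpos 0).le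
    have h4 : (A : ℝ) * φ 0 ≤ hh φ (ab (τ 0)) := by
      rw [← hxy, ab_append, ab_append, hh_add, hh_add, hh_replicate]
      linarith [hh_ab_nonneg hpos x, hh_ab_nonneg hpos y]
    have hK : (0 : ℝ) ≤ K := Nat.cast_nonneg _
    calc (K : ℝ) * hh φ (ab (τ j)) ≤ K * ((τ j).length * φ 0) := mul_le_mul_of_nonneg_left h1 hK
      _ = K * (τ j).length * φ 0 := by ring
      _ ≤ A * φ 0 := mul_le_mul_of_nonneg_right h2 h0
      _ ≤ _ := h4

/-- the height is nearly the `0`-th coordinate -/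
theorem Ph.near (h : Ph K φ) (hL : 1 ≤ L) (v : Fin (m+1) → ℤ) :
    (K : ℝ) * |hh φ v - φ 0 * v 0| ≤ φ 0 * nv L v := by
  have h1 : hh φ v - φ 0 * v 0 = ∑ j ∈ Finset.univ.erase (0 : Fin (m+1)), φ j * (v j : ℝ) := by
    unfold hh
    rw [← Finset.add_sum_erase _ _ (Finset.mem_univ (0 : Fin (m+1)))]
    ring
  have h2 : (K : ℝ) * |∑ j ∈ Finset.univ.erase (0 : Fin (m+1)), φ j * (v j : ℝ)| ≤
      ∑ j ∈ Finset.univ.erase (0 : Fin (m+1)), φ 0 * |(v j : ℝ)| := by
    calc (K : ℝ) * |∑ j ∈ Finset.univ.erase (0 : Fin (m+1)), φ j * (v j : ℝ)| ≤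
        K * ∑ j ∈ Finset.univ.erase (0 : Fin (m+1)), |φ j * (v j : ℝ)| :=
          mul_le_mul_of_nonneg_left (Finset.abs_sum_le_sum_abs _ _) (Nat.cast_nonneg _)
      _ = ∑ j ∈ Finset.univ.erase (0 : Fin (m+1)), (K * φ j) * |(v j : ℝ)| := by
          rw [Finset.mul_sum]
          refine Finset.sum_congr rfl fun j _ => ?_
          rw [abs_mul, abs_of_pos (h.pos j)]
          ring
      _ ≤ _ := Finset.sum_le_sum fun j hj =>
          mul_le_mul_of_nonneg_right (h.small j (Finset.ne_of_mem_erase hj)) (abs_nonneg _)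
  rw [h1]
  refine h2.trans ?_
  rw [← Finset.mul_sum]
  refine mul_le_mul_of_nonneg_left ?_ (h.pos 0).le
  have h3 := abs_le_nv hL v
  have h4 : ((∑ j ∈ Finset.univ.erase (0 : Fin (m+1)), |v j| : ℤ) : ℝ) ≤ (nv L v : ℝ) := by
    exact_mod_cast h3
  push_cast at h4
  exact h4

theorem near64 (hL : 1 ≤ L) {G : ℕ} (hK : 64 * G ≤ K) (hφ : Ph K φ) (v : Fin (m+1) → ℤ) :
    64 * G * |hh φ v - φ 0 * v 0| ≤ φ 0 * nv L v := by
  have h1 := hφ.near hL v
  have hKr : (64 : ℝ) * G ≤ K := by exact_mod_cast hK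
  have h2 := mul_le_mul_of_nonneg_right hKr (abs_nonneg (hh φ v - φ 0 * v 0))
  linarith

/-- one step of the contraction -/
theorem step (hL : 1 ≤ L) (h : Dom L κ K τ) {G : ℕ} (hG : G = (κ + 1) * (2 * L) ^ m)
    (hK : 64 * G ≤ K) (hφ : Ph K φ)
    {e' f' e f : (Fin (m+1) → ℤ) × Fin (m+1)}
    (he : e ∈ edges ((inc τ).mulVec e'.1) (τ e'.2)) (hf : f ∈ edges ((inc τ).mulVec f'.1) (τ f'.2))
    (hov : Ov φ e f) :
    (nv L (f.1 - e.1) : ℝ) ≤ 3 / 4 * nv L (f'.1 - e'.1) + 3 * G := by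
  have hG1 : 1 ≤ G := by
    rw [hG]
    exact Nat.mul_pos (by omega) (Nat.pow_pos (by omega))
  have hK1 : 1 ≤ K := by omega
  have hpar := hov.parent hφ.pos he hf
  have hψ := h.pull hφ.pos (hφ.le hK1)
  obtain ⟨k, hk, rfl⟩ := mem_edges.1 he
  obtain ⟨l, hl, rfl⟩ := mem_edges.1 hf
  obtain ⟨v, hv⟩ : ∃ v, v = f'.1 - e'.1 := ⟨_, rfl⟩
  have e1 : (inc τ).mulVec f'.1 + ab ((τ f'.2).take l) -
      ((inc τ).mulVec e'.1 + ab ((τ e'.2).take k)) =
      (inc τ).mulVec v + ab ((τ f'.2).take l) - ab ((τ e'.2).take k) := by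
    rw [hv, Matrix.mulVec_sub]
    abel
  simp only
  rw [e1, ← hv]
  rw [Ov, ← hv] at hpar
  -- the coordinate
  have h0 := hψ.pos 0
  have h2 := hψ.le hK1 e'.2
  have h3 := hψ.le hK1 f'.2
  have hLr : (1 : ℝ) ≤ L := by exact_mod_cast hL
  have hGr : (1 : ℝ) ≤ G := by exact_mod_cast hG1
  have hn0 : (0 : ℝ) ≤ nv L v := by exact_mod_cast nv_nonneg L v
  have h4 := near64 hL hK hψ v
  have h5 : 64 * G * |(v 0 : ℝ)| ≤ 64 * G + nv L v := by
    have h6 : |hh (Pool.Agent.Y316.Pisot.pull φ τ) v| ≤ Pool.Agent.Y316.Pisot.pull φ τ 0 := by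
      rw [abs_le]
      constructor <;> linarith [hpar.1, hpar.2]
    have h7 : Pool.Agent.Y316.Pisot.pull φ τ 0 * |(v 0 : ℝ)| ≤
        |hh (Pool.Agent.Y316.Pisot.pull φ τ) v| +
        |hh (Pool.Agent.Y316.Pisot.pull φ τ) v - Pool.Agent.Y316.Pisot.pull φ τ 0 * v 0| := by
      rw [← abs_of_pos h0, ← abs_mul, abs_of_pos h0]
      have := abs_sub_abs_le_abs_sub (Pool.Agent.Y316.Pisot.pull φ τ 0 * (v 0 : ℝ))
        (hh (Pool.Agent.Y316.Pisot.pull φ τ) v)
      rw [abs_sub_comm] at this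
      linarith
    have h8 : Pool.Agent.Y316.Pisot.pull φ τ 0 * (64 * G * |(v 0 : ℝ)|) ≤
        Pool.Agent.Y316.Pisot.pull φ τ 0 * (64 * G + nv L v) := by
      have h9 : 64 * (G : ℝ) * (Pool.Agent.Y316.Pisot.pull φ τ 0 * |(v 0 : ℝ)|) ≤ 64 * G *
        (|hh (Pool.Agent.Y316.Pisot.pull φ τ) v| +
        |hh (Pool.Agent.Y316.Pisot.pull φ τ) v - Pool.Agent.Y316.Pisot.pull φ τ 0 * v 0|) :=
        mul_le_mul_of_nonneg_left h7 (by linarith)
      have h10 : 64 * (G : ℝ) * |hh (Pool.Agent.Y316.Pisot.pull φ τ) v| ≤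
          64 * G * Pool.Agent.Y316.Pisot.pull φ τ 0 :=
        mul_le_mul_of_nonneg_left h6 (by linarith)
      linarith
    exact le_of_mul_le_mul_left h8 h0
  -- the weights
  have h6 : (2 : ℝ) * nv L ((inc τ).mulVec v) ≤ 2 * (|(v 0 : ℝ)| * G) + nv L v := by
    have h7 := h.nv_mulVec hL v
    have h8 : (2 : ℝ) * nv L ((inc τ).mulVec v) ≤
        2 * (|(v 0 : ℝ)| * wt L (τ 0)) + nv L v := by exact_mod_cast h7
    have h9 : (wt L (τ 0) : ℝ) ≤ G := by
      rw [hG]; exact_mod_cast h.wt_img_le hL 0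
    have h10 := mul_le_mul_of_nonneg_left h9 (abs_nonneg (v 0 : ℝ))
    linarith
  have h7 : (nv L ((inc τ).mulVec v + ab ((τ f'.2).take l) - ab ((τ e'.2).take k)) : ℝ) ≤
      nv L ((inc τ).mulVec v) + 2 * G := by
    have h8 := nv_sub L ((inc τ).mulVec v + ab ((τ f'.2).take l)) (ab ((τ e'.2).take k))
    have h9 := nv_add L ((inc τ).mulVec v) (ab ((τ f'.2).take l))
    rw [nv_ab] at h8 h9
    have h10 : wt L ((τ e'.2).take k) ≤ G := by
      rw [hG]; exact (wt_take_le _ _ _).trans (h.wt_img_le hL _)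
    have h11 : wt L ((τ f'.2).take l) ≤ G := by
      rw [hG]; exact (wt_take_le _ _ _).trans (h.wt_img_le hL _)
    have h12 : nv L ((inc τ).mulVec v + ab ((τ f'.2).take l) - ab ((τ e'.2).take k)) ≤
      nv L ((inc τ).mulVec v) + 2 * G := by omega
    exact_mod_cast h12
  nlinarith

/-- the contraction for compositions -/
theorem contract (hL : 1 ≤ L) {G : ℕ} (hG : G = (κ + 1) * (2 * L) ^ m)
    (hK : 64 * G ≤ K) (l : List (Fin (m+1) → List (Fin (m+1))))
    (hl : ∀ τ ∈ l, Dom L κ K τ) :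
    ∀ (φ : Fin (m+1) → ℝ), Ph K φ → ∀ (x y : Fin (m+1) → ℤ) (a b : Fin (m+1)),
      ∀ e ∈ edges ((inc (compList l)).mulVec x) (compList l a),
      ∀ f ∈ edges ((inc (compList l)).mulVec y) (compList l b), Ov φ e f →
      (nv L (f.1 - e.1) : ℝ) ≤ (3 / 4) ^ l.length * nv L (y - x) + 12 * G := by
  have hG1 : 1 ≤ G := by
    rw [hG]
    exact Nat.mul_pos (by omega) (Nat.pow_pos (by omega))
  have hK1 : 1 ≤ K := by omega
  induction l with
  | nil =>
    intro φ hφ x y a b e he f hf hov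
    simp only [compList, JComp_inc_id, Matrix.one_mulVec, edges, List.mem_singleton] at he hf
    rw [he, hf]
    have : (0 : ℝ) ≤ G := Nat.cast_nonneg _
    simp only [List.length_nil, pow_zero, one_mul]
    linarith
  | cons τ l ih =>
    intro φ hφ x y a b e he f hf hov
    have hτ := hl τ (List.mem_cons_self ..)
    simp only [compList, inc_comp, ← Matrix.mulVec_mulVec, comp, edges_ext,
      List.mem_flatMap] at he hf
    obtain ⟨e', he', he⟩ := he
    obtain ⟨f', hf', hf⟩ := hf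
    have h1 := step hL hτ hG hK hφ he hf hov
    have h2 := hov.parent hφ.pos he hf
    have h3 := ih (fun τ' h => hl τ' (List.mem_cons_of_mem _ h)) _
      (hτ.pull hφ.pos (hφ.le hK1)) x y a b e' he' f' hf' h2
    rw [List.length_cons, pow_succ]
    nlinarith

theorem ph_list (hK : 1 ≤ K) (l : List (Fin (m+1) → List (Fin (m+1))))
    (hl : ∀ τ ∈ l, Dom L κ K τ) : ∀ (φ : Fin (m+1) → ℝ), Ph K φ →
      Ph K (pull φ (compList l)) := by
  induction l with
  | nil =>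
    intro φ hφ
    have : pull φ (compList []) = φ := by
      funext j
      simp [pull, compList, ab_single, hh_ev]
    rw [this]
    exact hφ
  | cons τ l ih =>
    intro φ hφ
    have hτ := hl τ (List.mem_cons_self ..)
    simp only [compList]
    rw [pull_comp]
    exact ih (fun τ' h => hl τ' (List.mem_cons_of_mem _ h)) _ (hτ.pull hφ.pos (hφ.le hK))

end ph

end Pool.Agent.Y316.Pisot
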