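import Pool.Agent.H812R2.PI.JFin
import Pool.Agent.H812R2.PI.SRec

/-!
Strong coincidences for all large powers of a substitution give the conclusion of the Pisot
conjecture.
-/

set_option autoImplicit false

namespace Pool.Agent.Y316.Pisot
open Pool.Agent.H812R2.PI
open scoped BigOperators

variable {d : ℕ}

theorem compList_replicate (S : Fin d → List (Fin d)) (n : ℕ) :
    compList (List.replicate n S) = iter S n := by
  induction n with
  | zero => rfl
  | succ n ih =>
    rw [List.replicate_succ]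
    simp only [compList]
    rw [ih]
    funext a
    simp only [comp]
    rw [iter_succ]

theorem compList_flatten (l : List (Fin d → List (Fin d))) (n : ℕ) :
    compList ((List.replicate n l).flatten) = iter (compList l) n := by
  rw [← compList_replicate]
  induction n with
  | zero => rfl
  | succ n ih =>
    rw [List.replicate_succ, List.flatten_cons, compList_append, ih, List.replicate_succ]
    rfl

theorem iter_iter (S : Fin d → List (Fin d)) (n k : ℕ) (a : Fin d) :
    iter (iter S n) k a = iter S (n * k) a := by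
  induction k with
  | zero => rfl
  | succ k ih => rw [iter_succ, ih, Nat.mul_succ, Nat.add_comm, iter_add]

theorem lang_iter {S : Fin d → List (Fin d)} (P : PD (inc S)) (n : ℕ) (hn : 1 ≤ n) :
    lang (iter S n) = lang S := by
  ext w
  constructor
  · rintro ⟨k, hk, a, h⟩
    rw [iter_iter] at h
    exact ⟨n * k, Nat.mul_pos hn hk, a, h⟩
  · rintro ⟨r, hr, a, h⟩
    obtain ⟨k, hk, hprim⟩ := primitive P
    refine ⟨r + k, by omega, a, ?_⟩
    rw [iter_iter]
    refine h.trans ?_
    obtain ⟨q, hq⟩ : ∃ q, n * (r + k) = r + q := ⟨n * (r + k) - r, by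
      have : r + k ≤ n * (r + k) := Nat.le_mul_of_pos_left _ hn
      omega⟩
    have hqk : k ≤ q := by
      have : r + k ≤ n * (r + k) := Nat.le_mul_of_pos_left _ hn
      omega
    obtain ⟨s, t, hst⟩ := List.append_of_mem (hprim q hqk a a)
    rw [hq, iter_add, hst, ext_append, ext_cons]
    exact ⟨_, _, by rw [List.append_assoc]⟩

theorem X_iter {S : Fin d → List (Fin d)} (P : PD (inc S)) (n : ℕ) (hn : 1 ≤ n) :
    X (iter S n) = X S := by
  unfold X
  rw [lang_iter P n hn]

theorem semi_of_iter {S : Fin d → List (Fin d)} (P : PD (inc S)) (n : ℕ) (hn : 1 ≤ n)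
    (h : SemiConjToral (iter S n)) : SemiConjToral S := by
  unfold SemiConjToral at h ⊢
  rw [X_iter P n hn] at h
  exact h

theorem semi_of_hit {m : ℕ} {S : Fin (m+1) → List (Fin (m+1))} (P : PD (inc S))
    (hdet : IsUnit (inc S).det)
    (h : ∀ D : ℝ, ∃ n₀ : ℕ, ∀ n ≥ n₀, P.Hit (iter S n) D) : SemiConjToral S := by
  have hnn : ∀ i j, 0 ≤ inc S i j := fun i j => by unfold inc; positivity
  obtain ⟨B, hB⟩ : ∃ B : ℝ, B = P.c * ∑ i, ∑ j, ((inc S i j : ℤ) : ℝ) := ⟨_, rfl⟩
  have hB0 : 0 ≤ B := by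
    rw [hB]
    refine mul_nonneg P.c_pos.le (Finset.sum_nonneg fun i _ => Finset.sum_nonneg fun j _ => ?_)
    exact_mod_cast hnn i j
  have hr : 0 < 1 - P.rho := by linarith [P.rho_lt]
  obtain ⟨BS, hBS⟩ : ∃ BS : ℝ, BS = B / (1 - P.rho) + ∑ a : Fin (m+1), P.N (rv (ev a)) :=
    ⟨_, rfl⟩
  have hN : ∀ a : Fin (m+1), P.N (rv (ev a)) ≤ ∑ a : Fin (m+1), P.N (rv (ev a)) := fun a =>
    Finset.single_le_sum (f := fun a => P.N (rv (ev a))) (fun i _ => P.N_nonneg _)
      (Finset.mem_univ a)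
  have hBS0 : 0 ≤ BS := by
    rw [hBS]
    exact add_nonneg (div_nonneg hB0 hr.le) (Finset.sum_nonneg fun i _ => P.N_nonneg _)
  obtain ⟨n₀, hn₀⟩ := h ((16 * P.c ^ 2 + 4) * BS)
  obtain ⟨n₁, hn₁⟩ := exists_pow_lt_of_lt_one (show (0:ℝ) < 1/2 by norm_num) P.rho_lt
  obtain ⟨n, hn⟩ : ∃ n, n = max 1 (max n₀ n₁) := ⟨_, rfl⟩
  have h1 : 1 ≤ n := by rw [hn]; exact le_max_left _ _
  have h2 : n₀ ≤ n := by rw [hn]; exact (le_max_left _ _).trans (le_max_right _ _)
  have h3 : n₁ ≤ n := by rw [hn]; exact (le_max_right _ _).trans (le_max_right _ _)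
  refine semi_of_iter P n h1 ?_
  refine JFin_semi (P.pow n h1) (by rw [Matrix.det_pow]; exact hdet.pow n) BS
    ((16 * P.c ^ 2 + 4) * BS) hBS0 le_rfl ?_ 1 le_rfl (iter S n) (by rw [inc_iter, pow_one]) ?_ ?_
  · change P.rho ^ n ≤ 1 / 2
    exact (pow_le_pow_of_le_one P.rho_nonneg P.rho_lt.le h3).trans hn₁.le
  · intro a j
    change P.N (rv (ab ((iter S n a).take j))) ≤ BS
    rw [← compList_replicate]
    refine (compList_prefix P (List.replicate n S) B hB0 ?_ a j).trans ?_
    · intro τ hτ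
      rw [List.mem_replicate] at hτ
      rw [hτ.2]
      refine ⟨rfl, fun a k => ?_⟩
      rw [hB]
      exact JFin_BT P hnn S rfl a k
    · rw [hBS]
      linarith [hN a]
  · exact hn₀ n h2

end Pool.Agent.Y316.Pisot
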