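import Pool.Agent.Y316.Pisot.Search
import Pool.Agent.Y316.Pisot.Chain
import Pool.Agent.Y316.Pisot.Power
import Pool.Agent.TH100.Pisot.Few

/-!
The Pisot conjecture for compositions of substitutions with a dominating letter.
-/

set_option autoImplicit false

namespace Pool.Agent.Y316.Pisot
open Pool.Agent.H812R2.PI
open scoped BigOperators

variable {m : ℕ} {L κ K : ℕ}

theorem hh_bound {φ : Fin (m+1) → ℝ} {C : ℝ} (h : ∀ i, φ i ≤ C) (w : List (Fin (m+1))) :
    hh φ (ab w) ≤ w.length * C := by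
  induction w with
  | nil => simp [ab_nil, hh_zero]
  | cons a w ih =>
    rw [ab_cons, hh_add, hh_ev, List.length_cons]
    push_cast
    linarith [h a]

theorem pull_pos {φ : Fin (m+1) → ℝ} {τ : Fin (m+1) → List (Fin (m+1))} (h : Dom L κ K τ)
    (hφ : ∀ i, 0 < φ i) (j : Fin (m+1)) : 0 < pull φ τ j := by
  obtain ⟨a, w, hw⟩ := List.exists_cons_of_ne_nil (h.ne j)
  change 0 < hh φ (ab (τ j))
  rw [hw, ab_cons, hh_add, hh_ev]
  linarith [hφ a, hh_ab_nonneg hφ w]

theorem pull_zero {φ : Fin (m+1) → ℝ} {τ : Fin (m+1) → List (Fin (m+1))}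
    (hφ : ∀ i, 0 < φ i) (A : ℕ) (hA : List.replicate A (0 : Fin (m+1)) <:+: τ 0) :
    A * φ 0 ≤ pull φ τ 0 := by
  change A * φ 0 ≤ hh φ (ab (τ 0))
  obtain ⟨x, y, hxy⟩ := hA
  rw [← hxy, ab_append, ab_append, hh_add, hh_add, hh_replicate]
  linarith [hh_ab_nonneg hφ x, hh_ab_nonneg hφ y]

theorem ratio_step {φ : Fin (m+1) → ℝ} {τ : Fin (m+1) → List (Fin (m+1))} (h : Dom L κ K τ)
    (hK2 : 2 ≤ K) (hφ : ∀ i, 0 < φ i) (R : ℝ) (hR : ∀ i, φ i ≤ R * φ 0) (j : Fin (m+1)) :
    pull φ τ j ≤ max 1 (R / 2) * pull φ τ 0 := by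
  have h0 := pull_pos h hφ 0
  by_cases hj : j = 0
  · rw [hj]
    have := le_max_left 1 (R / 2)
    nlinarith
  · have h1 : pull φ τ j ≤ (τ j).length * (R * φ 0) := hh_bound hR (τ j)
    have hR0 : 0 < R * φ 0 := (hφ j).trans_le (hR j)
    obtain ⟨A, hA1, hA2, hA3⟩ := h.run
    have h5 := pull_zero hφ A hA3
    have h4 : (2 : ℝ) ≤ K := by exact_mod_cast hK2
    have h6 : (K : ℝ) * (τ j).length ≤ A := by exact_mod_cast hA2 j hj
    have h7 : (2 : ℝ) * (τ j).length ≤ A :=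
      (mul_le_mul_of_nonneg_right h4 (Nat.cast_nonneg _)).trans h6
    have h8 : (2 : ℝ) * (τ j).length * (R * φ 0) ≤ A * (R * φ 0) :=
      mul_le_mul_of_nonneg_right h7 hR0.le
    have hR1 : 0 < R := pos_of_mul_pos_left hR0 (hφ 0).le
    have h9 : R * (A * φ 0) ≤ R * pull φ τ 0 := mul_le_mul_of_nonneg_left h5 hR1.le
    have h10 : R / 2 * pull φ τ 0 ≤ max 1 (R / 2) * pull φ τ 0 :=
      mul_le_mul_of_nonneg_right (le_max_right _ _) h0.le
    linarith

theorem ratio_list (hK2 : 2 ≤ K) (R : ℝ) (hR1 : 1 ≤ R)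
    (l : List (Fin (m+1) → List (Fin (m+1)))) (hl : ∀ τ ∈ l, Dom L κ K τ) :
    ∀ φ : Fin (m+1) → ℝ, (∀ i, 0 < φ i) → (∀ i, φ i ≤ R * φ 0) →
      ∀ j, pull φ (compList l) j ≤ R * pull φ (compList l) 0 := by
  induction l with
  | nil =>
    intro φ hφ h j
    have : pull φ (compList []) = φ := by
      funext j
      simp [pull, compList, ab_single, hh_ev]
    rw [this]
    exact h j
  | cons τ l ih =>
    intro φ hφ h j
    have hτ := hl τ (List.mem_cons_self ..)
    simp only [compList]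
    rw [pull_comp]
    refine ih (fun τ' h => hl τ' (List.mem_cons_of_mem _ h)) _ (pull_pos hτ hφ) (fun i => ?_) j
    refine (ratio_step hτ hK2 hφ R h i).trans ?_
    refine mul_le_mul_of_nonneg_right ?_ (pull_pos hτ hφ 0).le
    exact max_le hR1 (by linarith)

/-- the left eigenvector gives small heights to the letters different from `0` -/
theorem ell_ph (hK2 : 2 ≤ K) (l : List (Fin (m+1) → List (Fin (m+1))))
    (hne : l ≠ []) (hl : ∀ τ ∈ l, Dom L κ K τ) (P : PD (inc (compList l))) :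
    Ph K P.ell := by
  obtain ⟨τ, l', rfl⟩ := List.exists_cons_of_ne_nil hne
  have hτ := hl τ (List.mem_cons_self ..)
  have hl' : ∀ τ' ∈ l', Dom L κ K τ' := fun τ' h => hl τ' (List.mem_cons_of_mem _ h)
  have hlam : 0 < P.lam := lt_trans one_pos P.lam_gt
  have heig : ∀ j, pull P.ell (compList (τ :: l')) j = P.lam * P.ell j := by
    intro j
    rw [← P.ell_M j]
    rfl
  have hpull : pull P.ell (compList (τ :: l')) = pull (pull P.ell τ) (compList l') := by
    simp only [compList]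
    rw [pull_comp]
  obtain ⟨i, _, hi⟩ := Finset.exists_max_image (Finset.univ : Finset (Fin (m+1))) P.ell
    Finset.univ_nonempty
  have h0 := P.ell_pos 0
  obtain ⟨R, hR⟩ : ∃ R, R = P.ell i / P.ell 0 := ⟨_, rfl⟩
  have hRi : P.ell i = R * P.ell 0 := by rw [hR]; field_simp
  have hR1 : 1 ≤ R := by
    rw [hR, le_div_iff₀ h0, one_mul]
    exact hi 0 (Finset.mem_univ _)
  have hRle : ∀ j, P.ell j ≤ R * P.ell 0 := fun j => by
    rw [← hRi]; exact hi j (Finset.mem_univ _)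
  have h1 := ratio_list hK2 (max 1 (R / 2)) (le_max_left _ _) l' hl' (pull P.ell τ)
    (pull_pos hτ P.ell_pos) (fun j => ratio_step hτ hK2 P.ell_pos R hRle j) i
  rw [← hpull, heig, heig] at h1
  have h2 : P.ell i ≤ max 1 (R / 2) * P.ell 0 := by
    have : P.lam * P.ell i ≤ P.lam * (max 1 (R / 2) * P.ell 0) := by linarith
    exact le_of_mul_le_mul_left this hlam
  have h3 : R ≤ max 1 (R / 2) := by
    rw [hRi] at h2
    exact le_of_mul_le_mul_right h2 h0
  have h4 : R ≤ 1 := by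
    rcases le_max_iff.1 h3 with h | h
    · exact h
    · linarith
  have h5 : ∀ j, P.ell j ≤ P.ell 0 := fun j => (hRle j).trans (by nlinarith)
  have h6 := ph_list (by omega) l' hl' _ (hτ.pull P.ell_pos h5)
  rw [← hpull] at h6
  refine ⟨P.ell_pos, fun j hj => ?_⟩
  have h7 := h6.small j hj
  rw [heig, heig] at h7
  have h8 : P.lam * (K * P.ell j) ≤ P.lam * P.ell 0 := by linarith
  exact le_of_mul_le_mul_left h8 hlam

theorem exists_bound {α : Type*} {s : Set α} (hs : s.Finite) (f : α → ℝ) :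
    ∃ K : ℝ, 0 ≤ K ∧ ∀ x ∈ s, f x ≤ K := by
  obtain ⟨K, hK⟩ := (hs.image f).bddAbove
  exact ⟨max K 0, le_max_right _ _, fun x hx => (hK ⟨x, hx, rfl⟩).trans (le_max_left _ _)⟩

theorem exists_lower {α : Type*} {s : Set α} (hs : s.Finite) (f : α → ℝ)
    (hf : ∀ x ∈ s, 0 < f x) : ∃ δ : ℝ, 0 < δ ∧ ∀ x ∈ s, δ ≤ f x := by
  obtain ⟨K, hK0, hK⟩ := exists_bound hs (fun x => 1 / f x)
  refine ⟨1 / (K + 1), by positivity, fun x hx => ?_⟩
  have h1 := hK x hx
  have h2 := hf x hx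
  rw [div_le_iff₀ (by positivity)]
  rw [div_le_iff₀ h2] at h1
  nlinarith

theorem len_flatten {α : Type*} (l : List α) (n : ℕ) (hl : l ≠ []) :
    n ≤ ((List.replicate n l).flatten).length := by
  induction n with
  | zero => exact Nat.zero_le _
  | succ n ih =>
    rw [List.replicate_succ, List.flatten_cons, List.length_append]
    have := List.length_pos_iff.2 hl
    omega

theorem ht_eq (M : Matrix (Fin (m+1)) (Fin (m+1)) ℤ) (P : PD M) (v : Fin (m+1) → ℤ) :
    P.ht v = hh P.ell v := rfl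

theorem main_hit (hL : 1 ≤ L) {G : ℕ} (hG : G = (κ + 1) * (2 * L) ^ m)
    (hK : 64 * G ≤ K) (l : List (Fin (m+1) → List (Fin (m+1))))
    (hne : l ≠ []) (hl : ∀ τ ∈ l, Dom L κ K τ) (P : PD (inc (compList l))) (D : ℝ) :
    ∃ n₀ : ℕ, ∀ n ≥ n₀, P.Hit (iter (compList l) n) D := by
  have hG1 : 1 ≤ G := by
    rw [hG]
    exact Nat.mul_pos (by omega) (Nat.pow_pos (by omega))
  have hK2 : 2 ≤ K := by omega
  have hP := ell_ph hK2 l hne hl P
  have hlam : 0 < P.lam := lt_trans one_pos P.lam_gt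
  have hfin := Pool.Agent.TH100.Pisot.pairs_finite P D
  obtain ⟨K0, hK0, hK0'⟩ := exists_bound hfin (fun t => (nv L t.2.2 : ℝ))
  obtain ⟨δ, hδ, hδ'⟩ := exists_lower hfin (fun t => P.OV (0, t.1) (t.2.2, t.2.1))
    (fun t ht => ht.2)
  -- the number of steps
  obtain ⟨n2, hn2a, hn2b⟩ : ∃ n2 : ℕ, (3 / 4 : ℝ) ^ n2 * K0 ≤ 1 ∧ 3 * P.ell 0 ≤ P.lam ^ n2 * δ := by
    have h1 : Filter.Tendsto (fun n : ℕ => (3 / 4 : ℝ) ^ n * K0) Filter.atTop (nhds (0 * K0)) :=
      (tendsto_pow_atTop_nhds_zero_of_lt_one (by norm_num) (by norm_num)).mul_const K0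
    rw [zero_mul] at h1
    have h2 : Filter.Tendsto (fun n : ℕ => P.lam ^ n * δ) Filter.atTop Filter.atTop :=
      (tendsto_pow_atTop_atTop_of_one_lt P.lam_gt).atTop_mul_const hδ
    exact ((h1.eventually (ge_mem_nhds one_pos)).and
      (h2.eventually (Filter.eventually_ge_atTop (3 * P.ell 0)))).exists
  obtain ⟨n1, hn1⟩ : ∃ n1 : ℕ, 13 * G < 2 ^ n1 := ⟨13 * G, Nat.lt_two_pow_self⟩
  refine ⟨n1 + n2, fun n hn => ?_⟩
  obtain ⟨n', rfl⟩ : ∃ n', n = n' + n2 := ⟨n - n2, by omega⟩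
  have hn' : n1 ≤ n' := by omega
  intro a b v hv hov
  obtain ⟨l1, hl1⟩ : ∃ l1, l1 = (List.replicate n' l).flatten := ⟨_, rfl⟩
  obtain ⟨l2, hl2⟩ : ∃ l2, l2 = (List.replicate n2 l).flatten := ⟨_, rfl⟩
  have hd1 : ∀ τ ∈ l1, Dom L κ K τ := by
    intro τ hτ
    rw [hl1, List.mem_flatten] at hτ
    obtain ⟨l', h1, h2⟩ := hτ
    rw [List.mem_replicate] at h1
    rw [h1.2] at h2
    exact hl τ h2
  have hd2 : ∀ τ ∈ l2, Dom L κ K τ := by
    intro τ hτ
    rw [hl2, List.mem_flatten] at hτ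
    obtain ⟨l', h1, h2⟩ := hτ
    rw [List.mem_replicate] at h1
    rw [h1.2] at h2
    exact hl τ h2
  have hc1 : compList l1 = iter (compList l) n' := by rw [hl1, compList_flatten]
  have hc2 : compList l2 = iter (compList l) n2 := by rw [hl2, compList_flatten]
  have hc : iter (compList l) (n' + n2) = comp (compList l1) (compList l2) := by
    funext a
    rw [hc1, hc2, iter_add]
    rfl
  have hlen1 : n' ≤ l1.length := by rw [hl1]; exact len_flatten l n' hne
  have hlen2 : n2 ≤ l2.length := by rw [hl2]; exact len_flatten l n2 hne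
  have hinc2 : inc (compList l2) = inc (compList l) ^ n2 := by rw [hc2, inc_iter]
  -- heights
  have hht2 : ∀ v, hh P.ell ((inc (compList l2)).mulVec v) = P.lam ^ n2 * hh P.ell v := by
    intro v
    rw [hinc2]
    exact ht_pow_mulVec P n2 v
  have hht2' : ∀ a, hh P.ell (ab (compList l2 a)) = P.lam ^ n2 * P.ell a := by
    intro a
    rw [ab_subst, hht2, hh_ev]
  have hlamn : 0 < P.lam ^ n2 := pow_pos hlam n2
  have hmem : (a, b, v) ∈ {t : Fin (m+1) × Fin (m+1) × (Fin (m+1) → ℤ) | P.N (rv t.2.2) ≤ D ∧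
      0 < P.OV (0, t.1) (t.2.2, t.2.1)} := ⟨hv, hov⟩
  have hKv := hK0' _ hmem
  have hδv := hδ' _ hmem
  simp only at hKv hδv
  have hovl : δ ≤ min (P.ell a) (hh P.ell v + P.ell b) - max 0 (hh P.ell v) := by
    unfold PD.OV ovl at hδv hov
    simp only [ht_zero, zero_add] at hδv hov
    rcases le_max_iff.1 hδv with h | h
    · linarith
    · exact h
  -- search
  have hx0 : (inc (compList l2)).mulVec 0 = 0 := Matrix.mulVec_zero _
  have hcontr : ∀ e ∈ edges 0 (compList l2 a), ∀ f ∈ edges ((inc (compList l2)).mulVec v)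
      (compList l2 b), Ov P.ell e f → (nv L (f.1 - e.1) : ℝ) ≤ 13 * G := by
    intro e he f hf hef
    have h1 := contract hL hG hK l2 hd2 P.ell hP 0 v a b e (by rw [hx0]; exact he) f hf hef
    rw [sub_zero] at h1
    have h2 : (3 / 4 : ℝ) ^ l2.length * nv L v ≤ (3 / 4) ^ n2 * K0 := by
      refine mul_le_mul ?_ hKv (by exact_mod_cast nv_nonneg L v) (by positivity)
      exact pow_le_pow_of_le_one (by norm_num) (by norm_num) hlen2
    have h3 : (1 : ℝ) ≤ G := by exact_mod_cast hG1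
    linarith
  have hfz : ∀ c k, fz L ((compList l2 c).drop k) ≤ 4 * G := by
    intro c k
    rw [hG]
    exact fz_compList hL (by omega) l2 hd2 c k
  obtain ⟨e, he, f, hf, he2, hf2, h0, hn13⟩ := search hL hG1 hK hP 0
    ((inc (compList l2)).mulVec v) (compList l2 a) (compList l2 b) (hfz a) (hfz b) hcontr
    (P.lam ^ n2 * max 0 (hh P.ell v))
    (by rw [hh_zero]; exact mul_nonneg hlamn.le (le_max_left _ _))
    (by rw [hht2]; exact mul_le_mul_of_nonneg_left (le_max_right _ _) hlamn.le)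
    (by
      rw [hh_zero, hht2', zero_add]
      have h1 := min_le_left (P.ell a) (hh P.ell v + P.ell b)
      have h2 : P.lam ^ n2 * (max 0 (hh P.ell v) + δ) ≤ P.lam ^ n2 * P.ell a :=
        mul_le_mul_of_nonneg_left (by linarith) hlamn.le
      linarith)
    (by
      rw [hht2', hht2]
      have h1 := min_le_right (P.ell a) (hh P.ell v + P.ell b)
      have h2 : P.lam ^ n2 * (max 0 (hh P.ell v) + δ) ≤
          P.lam ^ n2 * (hh P.ell v + P.ell b) :=
        mul_le_mul_of_nonneg_left (by linarith) hlamn.le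
      linarith)
  -- chain
  have hn13' : nv L (f.1 - e.1) ≤ 13 * G := by exact_mod_cast hn13
  obtain ⟨e', he', f', hf', he2', hf2', h0', hpow⟩ := chain hL l1 hd1 e.1 f.1 h0 (by
    have h1 : (64 : ℤ) * G ≤ K := by exact_mod_cast hK
    have h3 : (1 : ℤ) ≤ G := by exact_mod_cast hG1
    linarith)
  have hzero : f'.1 - e'.1 = 0 := by
    refine eq_zero_of_nv hL _ h0' ?_
    by_contra hneg
    push Not at hneg
    have h1 : (1 : ℤ) ≤ nv L (f'.1 - e'.1) := hneg
    have h2 : (2 : ℤ) ^ n1 ≤ 2 ^ l1.length := pow_le_pow_right₀ (by norm_num) (hn'.trans hlen1)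
    have h3 : (13 : ℤ) * G < 2 ^ n1 := by exact_mod_cast hn1
    nlinarith
  have hef : e' = f' := by
    refine Prod.ext ?_ (he2'.trans hf2'.symm)
    exact (sub_eq_zero.1 hzero).symm
  refine ⟨e', ?_, ?_⟩
  · have h1 := JComp_mem (S := compList l1) he (h := e') (by rw [he2]; exact he')
    rw [Matrix.mulVec_zero] at h1
    rw [hc]
    exact h1
  · have h1 := JComp_mem (S := compList l1) hf (h := f') (by rw [hf2]; exact hf')
    rw [hc, inc_comp, ← Matrix.mulVec_mulVec, hef]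
    exact h1

theorem main (hL : 1 ≤ L) (hK : 64 * ((κ + 1) * (2 * L) ^ m) ≤ K)
    (l : List (Fin (m+1) → List (Fin (m+1)))) (hne : l ≠ []) (hl : ∀ τ ∈ l, Dom L κ K τ)
    (hM : PisotMat (inc (compList l))) : SemiConjToral (compList l) := by
  have hnn : ∀ i j, 0 ≤ inc (compList l) i j := fun i j => by unfold inc; positivity
  obtain ⟨lam, u, hlam, hu, husum⟩ := exists_u (inc (compList l)) hnn hM
  obtain ⟨P, -, -⟩ := exists_PD (inc (compList l)) hnn hM lam hlam u hu husum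
  have hdet : IsUnit (inc (compList l)).det := by
    rcases hM.2.1 with h | h
    · rw [h]; exact isUnit_one
    · rw [h]; exact isUnit_one.neg
  exact semi_of_hit P hdet (main_hit hL rfl hK l hne hl P)

end Pool.Agent.Y316.Pisot
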