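import Mathlib

/-!
General facts about integer polynomials and complex matrices.
-/

set_option autoImplicit false

namespace Pool.Agent.Y316.Pisot
open Polynomial
open scoped BigOperators

theorem prod_lt_one (s : Multiset ℂ) (hs : s ≠ 0) (h : ∀ z ∈ s, ‖z‖ < 1) : ‖s.prod‖ < 1 := by
  induction s using Multiset.induction_on with
  | empty => exact absurd rfl hs
  | cons a s ih =>
    rw [Multiset.prod_cons, norm_mul]
    have h1 := h a (Multiset.mem_cons_self a s)
    by_cases hs' : s = 0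
    · rw [hs', Multiset.prod_zero, norm_one, mul_one]
      exact h1
    · have h2 := ih hs' fun z hz => h z (Multiset.mem_cons_of_mem hz)
      have h3 := norm_nonneg a
      have h4 := norm_nonneg s.prod
      nlinarith

theorem exists_big_root (F : ℤ[X]) (hF : F.Monic) (hdeg : 0 < F.natDegree)
    (h0 : F.coeff 0 ≠ 0) :
    ∃ z : ℂ, (F.map (Int.castRingHom ℂ)).IsRoot z ∧ 1 ≤ ‖z‖ := by
  by_contra hcon
  push Not at hcon
  have hm : (F.map (Int.castRingHom ℂ)).Monic := hF.map _
  have hsp : (F.map (Int.castRingHom ℂ)).Splits := IsAlgClosed.splits _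
  have h1 := Polynomial.Splits.coeff_zero_eq_prod_roots_of_monic hsp hm
  have h2 : (F.map (Int.castRingHom ℂ)).roots ≠ 0 := by
    intro h
    have h3 : Multiset.card (F.map (Int.castRingHom ℂ)).roots =
        (F.map (Int.castRingHom ℂ)).natDegree := hsp.natDegree_eq_card_roots.symm
    rw [h, Multiset.card_zero, hF.natDegree_map] at h3
    omega
  have h3 := prod_lt_one _ h2 fun z hz => hcon z (isRoot_of_mem_roots hz)
  have h4 : 1 ≤ ‖(F.map (Int.castRingHom ℂ)).coeff 0‖ := by
    rw [coeff_map, eq_intCast, Complex.norm_intCast]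
    exact_mod_cast Int.one_le_abs h0
  rw [h1, norm_mul, norm_pow, norm_neg, norm_one, one_pow, one_mul] at h4
  linarith

theorem irr_of_simple (F : ℤ[X]) (hF : F.Monic) (hdeg : 0 < F.natDegree)
    (h0 : F.coeff 0 ≠ 0) (μ : ℂ)
    (hroots : ∀ z : ℂ, (F.map (Int.castRingHom ℂ)).IsRoot z → 1 ≤ ‖z‖ → z = μ)
    (hsimple : (F.map (Int.castRingHom ℂ)).rootMultiplicity μ ≤ 1) : Irreducible F := by
  rw [hF.irreducible_iff_natDegree']
  refine ⟨?_, ?_⟩
  · rintro rfl
    simp at hdeg
  · intro f g hf hg hfg hmem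
    rw [Finset.mem_Ioc] at hmem
    have hgd : 0 < g.natDegree := hmem.1
    have hfd : 0 < f.natDegree := by
      have h1 : F.natDegree = f.natDegree + g.natDegree := by
        rw [← hfg, hf.natDegree_mul hg]
      omega
    have hc : F.coeff 0 = f.coeff 0 * g.coeff 0 := by rw [← hfg, mul_coeff_zero]
    rw [hc] at h0
    obtain ⟨hf0, hg0⟩ := mul_ne_zero_iff.1 h0
    obtain ⟨z, hz, hz1⟩ := exists_big_root f hf hfd hf0
    obtain ⟨w, hw, hw1⟩ := exists_big_root g hg hgd hg0
    have hmap : F.map (Int.castRingHom ℂ) =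
        f.map (Int.castRingHom ℂ) * g.map (Int.castRingHom ℂ) := by
      rw [← hfg, Polynomial.map_mul]
    have hne : f.map (Int.castRingHom ℂ) * g.map (Int.castRingHom ℂ) ≠ 0 := by
      rw [← hmap]
      exact (hF.map _).ne_zero
    have hzμ : z = μ := hroots z (by rw [hmap]; exact root_mul_right_of_isRoot _ hz) hz1
    have hwμ : w = μ := hroots w (by rw [hmap]; exact root_mul_left_of_isRoot _ hw) hw1
    rw [hzμ] at hz
    rw [hwμ] at hw
    rw [hmap, rootMultiplicity_mul hne] at hsimple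
    have h1 := (rootMultiplicity_pos (left_ne_zero_of_mul hne)).2 hz
    have h2 := (rootMultiplicity_pos (right_ne_zero_of_mul hne)).2 hw
    omega

/-- eigenvectors -/
theorem eig {n : ℕ} (M : Matrix (Fin n) (Fin n) ℂ) (μ : ℂ) (h : M.charpoly.IsRoot μ) :
    ∃ v : Fin n → ℂ, v ≠ 0 ∧ M.mulVec v = μ • v := by
  rw [IsRoot, Matrix.eval_charpoly] at h
  obtain ⟨v, hv, h1⟩ := Matrix.exists_mulVec_eq_zero_iff.mpr h
  refine ⟨v, hv, ?_⟩
  rw [Matrix.sub_mulVec, sub_eq_zero] at h1
  rw [← h1]
  funext i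
  simp [Matrix.scalar, Matrix.mulVec, dotProduct, Matrix.diagonal, Finset.sum_ite_eq]

theorem simple_root {n : ℕ} (M : Matrix (Fin n) (Fin n) ℂ) (μ : ℂ) (u : Fin n → ℂ)
    (h : ∀ x : Fin n → ℂ, (∃ α : ℂ, M.mulVec x = μ • x + α • u) → ∃ c : ℂ, x = c • u) :
    M.charpoly.rootMultiplicity μ ≤ 1 := by
  rw [← Matrix.charpoly_toLin', ← LinearMap.finrank_maxGenEigenspace_eq]
  have h1 : Module.End.maxGenEigenspace (Matrix.toLin' M) μ ≤ Submodule.span ℂ {u} := by
    intro x hx
    rw [Module.End.mem_maxGenEigenspace] at hx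
    obtain ⟨k, hk⟩ := hx
    rw [Submodule.mem_span_singleton]
    induction k generalizing x with
    | zero =>
      rw [pow_zero, Module.End.one_apply] at hk
      exact ⟨0, by rw [hk, zero_smul]⟩
    | succ k ih =>
      rw [pow_succ, Module.End.mul_apply] at hk
      obtain ⟨α, hα⟩ := ih hk
      obtain ⟨c, hc⟩ := h x ⟨α, by
        rw [hα]
        simp⟩
      exact ⟨c, hc.symm⟩
  refine (Submodule.finrank_mono h1).trans ?_
  exact (finrank_span_le_card ({u} : Set (Fin n → ℂ))).trans (by simp)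

end Pool.Agent.Y316.Pisot
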