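import Pool.Agent.Y316.Pisot.Auto
import Pool.Agent.Y316.Pisot.Root
import Pool.Agent.H812R2.PI.LPD

/-!
Compositions of dominated substitutions with unimodular matrices have unimodular irreducible
Pisot matrices.
-/

set_option autoImplicit false

namespace Pool.Agent.Y316.Pisot
open Pool.Agent.H812R2.PI
open scoped BigOperators

variable {m : ℕ} {L κ K : ℕ} {G : ℕ}

theorem dc_smul {c : ℂ} (hc : c ≠ 0) (x : Fin (m+1) → ℂ) : Dc L G (c • x) ↔ Dc L G x := by
  unfold Dc
  rw [cn_smul, Pi.smul_apply, smul_eq_mul, norm_mul]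
  have h := norm_pos_iff.2 hc
  constructor
  · intro h1
    refine le_of_mul_le_mul_left ?_ h
    linarith
  · intro h1
    have := mul_le_mul_of_nonneg_left h1 h.le
    linarith

/-- real vectors as complex vectors -/
noncomputable def cr (y : Fin (m+1) → ℝ) : Fin (m+1) → ℂ := fun i => (y i : ℂ)

theorem p_step {τ : Fin (m+1) → List (Fin (m+1))} (h : Dom L κ K τ) (hL : 1 ≤ L)
    (hG : G = (κ + 1) * (2 * L) ^ m)
    (hK : 64 * G ≤ K) (y : Fin (m+1) → ℝ) (hx : Dc L G (cr y)) (hy : 0 < y 0) :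
    ∃ y' : Fin (m+1) → ℝ, cm τ (cr y) = cr y' ∧ 2 * y 0 ≤ y' 0 := by
  refine ⟨fun i => ∑ j, ((inc τ i j : ℤ) : ℝ) * y j, ?_, ?_⟩
  · funext i
    simp [cm, cr, Matrix.mulVec, dotProduct]
  · have hG1 : 1 ≤ G := by
      rw [hG]
      exact Nat.mul_pos (by omega) (Nat.pow_pos (by omega))
    have hG1r : (1 : ℝ) ≤ G := by exact_mod_cast hG1
    obtain ⟨ha1, -⟩ := h.a_ge
    have hKr : (64 : ℝ) * G ≤ K := by exact_mod_cast hK
    have hK0 : (0 : ℝ) < K := by linarith
    have ha : (K : ℝ) ≤ ((inc τ 0 0 : ℤ) : ℝ) := by exact_mod_cast ha1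
    have h2 := h.c2 hL (cr y)
    have h3 : cm τ (cr y) 0 - ((inc τ 0 0 : ℤ) : ℂ) * cr y 0 =
        (((∑ j, ((inc τ 0 j : ℤ) : ℝ) * y j) - ((inc τ 0 0 : ℤ) : ℝ) * y 0 : ℝ) : ℂ) := by
      simp [cm, cr, Matrix.mulVec, dotProduct]
    rw [h3, Complex.norm_real, Real.norm_eq_abs] at h2
    obtain ⟨a, ha'⟩ : ∃ a, a = ((inc τ 0 0 : ℤ) : ℝ) := ⟨_, rfl⟩
    obtain ⟨b, hb⟩ : ∃ b, b = ∑ j, ((inc τ 0 j : ℤ) : ℝ) * y j := ⟨_, rfl⟩
    rw [← ha'] at ha h2
    change 2 * y 0 ≤ ∑ j, ((inc τ 0 j : ℤ) : ℝ) * y j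
    rw [← hb] at h2 ⊢
    unfold Dc at hx
    have h4 : ‖cr y 0‖ = y 0 := by
      unfold cr
      rw [Complex.norm_real, Real.norm_eq_abs, abs_of_pos hy]
    rw [h4] at hx
    have h5 : a * cn L (cr y) ≤ K * (a / 16 * y 0) := by
      have h6 : a * cn L (cr y) ≤ a * (4 * G * y 0) := mul_le_mul_of_nonneg_left hx (by linarith)
      have h7 : a * (4 * G * y 0) ≤ K * (a / 16 * y 0) := by
        have h8 : 0 ≤ a * y 0 := mul_nonneg (by linarith) hy.le
        nlinarith
      exact h6.trans h7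
    have h6 := le_of_mul_le_mul_left (h2.trans h5) hK0
    have h7 := (abs_le.1 h6).1
    have h8 : (64 : ℝ) ≤ a := by linarith
    nlinarith

theorem p_list (hL : 1 ≤ L) (hG : G = (κ + 1) * (2 * L) ^ m) (hK : 64 * G ≤ K)
    (l : List (Fin (m+1) → List (Fin (m+1)))) (hl : ∀ τ ∈ l, Dom L κ K τ)
    (y : Fin (m+1) → ℝ) (hx : Dc L G (cr y)) (hy : 0 < y 0) :
    ∃ y' : Fin (m+1) → ℝ, cm (compList l) (cr y) = cr y' ∧ 2 ^ l.length * y 0 ≤ y' 0 := by
  induction l with
  | nil => exact ⟨y, cm_id _, by simp⟩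
  | cons τ l ih =>
    have hl' : ∀ τ ∈ l, Dom L κ K τ := fun τ' h => hl τ' (List.mem_cons_of_mem _ h)
    obtain ⟨y1, h1, h2⟩ := ih hl'
    have h3 := d_list hL hG hK l hl' (cr y) hx
    rw [h1] at h3
    have h4 : 0 < y1 0 := lt_of_lt_of_le (by positivity) h2
    obtain ⟨y2, h5, h6⟩ := p_step (hl τ (List.mem_cons_self ..)) hL hG hK y1 h3 h4
    refine ⟨y2, by rw [cm_cons, h1, h5], ?_⟩
    rw [List.length_cons, pow_succ]
    linarith

theorem charpoly_cast (M : Matrix (Fin (m+1)) (Fin (m+1)) ℤ) :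
    (M.map (Int.cast : ℤ → ℂ)).charpoly = M.charpoly.map (Int.castRingHom ℂ) :=
  Matrix.charpoly_map M (Int.castRingHom ℂ)

theorem charpoly_castQ (M : Matrix (Fin (m+1)) (Fin (m+1)) ℤ) :
    (M.map (Int.cast : ℤ → ℚ)).charpoly = M.charpoly.map (Int.castRingHom ℚ) :=
  Matrix.charpoly_map M (Int.castRingHom ℚ)

/-- irreducible Pisot, without the condition on the determinant -/
def PisIrr (M : Matrix (Fin (m+1)) (Fin (m+1)) ℤ) : Prop :=
  Irreducible (M.map (Int.cast : ℤ → ℚ)).charpoly ∧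
  ∃ lam : ℝ, 1 < lam ∧ (M.map (Int.cast : ℤ → ℂ)).charpoly.IsRoot (lam : ℂ) ∧
    ∀ μ : ℂ, (M.map (Int.cast : ℤ → ℂ)).charpoly.IsRoot μ → μ ≠ (lam : ℂ) → 0 < ‖μ‖ ∧ ‖μ‖ < 1

theorem pisot_auto' (hL : 1 ≤ L) (hG : G = (κ + 1) * (2 * L) ^ m) (hK : 64 * G ≤ K)
    (l : List (Fin (m+1) → List (Fin (m+1)))) (hne : l ≠ []) (hl : ∀ τ ∈ l, Dom L κ K τ)
    (hdet : (inc (compList l)).det ≠ 0) :
    PisIrr (inc (compList l)) := by
  have hlen : 1 ≤ l.length := List.length_pos_iff.2 hne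
  obtain ⟨M, hM⟩ : ∃ M, M = inc (compList l) := ⟨_, rfl⟩
  have hcm : ∀ x, cm (compList l) x = (M.map (Int.cast : ℤ → ℂ)).mulVec x := fun x => by
    rw [hM]; rfl
  rw [← hM] at hdet ⊢
  have hmonic : M.charpoly.Monic := M.charpoly_monic
  have hdeg : 0 < M.charpoly.natDegree := by
    rw [Matrix.charpoly_natDegree_eq_dim]
    simp
  have h0 : M.charpoly.coeff 0 ≠ 0 := by
    have h1 := Matrix.det_eq_sign_charpoly_coeff M
    rw [h1] at hdet
    exact (mul_ne_zero_iff.1 hdet).2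
  obtain ⟨μ, hμ, hμ1⟩ := exists_big_root M.charpoly hmonic hdeg h0
  have hμ0 : μ ≠ 0 := by
    intro h
    rw [h, norm_zero] at hμ1
    linarith
  obtain ⟨u, hu, huμ⟩ := eig (M.map (Int.cast : ℤ → ℂ)) μ (by rw [charpoly_cast]; exact hμ)
  rw [← hcm] at huμ
  have hpow34 : (3 / 4 : ℝ) ^ l.length < 1 := pow_lt_one₀ (by norm_num) (by norm_num) (by omega)
  have hpow35 : (3 / 5 : ℝ) ^ l.length < 1 := pow_lt_one₀ (by norm_num) (by norm_num) (by omega)
  -- the eigenvector is in the cone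
  have huD : Dc L G u := by
    rcases n_list hL hG hK l hl u with h | h
    · rw [huμ, dc_smul hμ0] at h
      exact h
    · by_contra hnd
      rw [huμ, cn_smul] at h
      have h1 : 0 < cn L u := by
        unfold Dc at hnd
        push Not at hnd
        exact lt_of_le_of_lt (by positivity) hnd
      nlinarith
  have hu0 : u 0 ≠ 0 := by
    intro h
    apply hu
    refine eq_zero_of_cn hL u h ?_
    unfold Dc at huD
    rw [h, norm_zero, mul_zero] at huD
    exact huD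
  -- the other directions are contracted
  have key : ∀ (ν α : ℂ) (x : Fin (m+1) → ℂ), 1 ≤ ‖ν‖ →
      cm (compList l) x = ν • x + α • u → ∃ c : ℂ, x = c • u := by
    intro ν α x hν hx
    obtain ⟨-, h1⟩ := q_list hL hG hK l hl u x huD hu0
    have h2 : ex (cm (compList l) u) (cm (compList l) x) = ν • ex u x := by
      rw [huμ, hx]
      funext j
      simp only [ex, Pi.sub_apply, Pi.add_apply, Pi.smul_apply, smul_eq_mul]
      field_simp
      ring
    rw [h2, cn_smul] at h1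
    have h3 : cn L (ex u x) ≤ 0 := by
      have h4 := cn_nonneg L (ex u x)
      nlinarith
    have h4 := eq_zero_of_cn hL _ (ex_zero hu0 x) h3
    exact ⟨x 0 / u 0, sub_eq_zero.1 h4⟩
  have hothers : ∀ ν : ℂ, (M.charpoly.map (Int.castRingHom ℂ)).IsRoot ν → 1 ≤ ‖ν‖ → ν = μ := by
    intro ν hν hν1
    obtain ⟨w, hw, hwν⟩ := eig (M.map (Int.cast : ℤ → ℂ)) ν (by rw [charpoly_cast]; exact hν)
    rw [← hcm] at hwν
    obtain ⟨c, hc⟩ := key ν 0 w hν1 (by rw [hwν, zero_smul, add_zero])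
    have hc0 : c ≠ 0 := by
      rintro rfl
      rw [zero_smul] at hc
      exact hw hc
    have h1 : c • μ • u = ν • c • u := by
      rw [← hc, ← hwν, hc, cm_smul, huμ]
    have h2 := congrFun h1 0
    simp only [Pi.smul_apply, smul_eq_mul] at h2
    have h3 : c * u 0 * (μ - ν) = 0 := by linear_combination h2
    rcases mul_eq_zero.1 h3 with h4 | h4
    · exact absurd h4 (mul_ne_zero hc0 hu0)
    · exact (sub_eq_zero.1 h4).symm
  have hsimple : (M.charpoly.map (Int.castRingHom ℂ)).rootMultiplicity μ ≤ 1 := by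
    rw [← charpoly_cast]
    refine simple_root _ μ u fun x hx => ?_
    obtain ⟨α, hα⟩ := hx
    rw [← hcm] at hα
    exact key μ α x hμ1 hα
  -- the root is real
  have hconj : (M.charpoly.map (Int.castRingHom ℂ)).IsRoot ((starRingEnd ℂ) μ) := by
    rw [Polynomial.IsRoot, Polynomial.eval_map] at hμ ⊢
    have h1 := Polynomial.hom_eval₂ M.charpoly (Int.castRingHom ℂ) (starRingEnd ℂ) μ
    rw [hμ, map_zero] at h1
    have h2 : (starRingEnd ℂ).comp (Int.castRingHom ℂ) = Int.castRingHom ℂ := RingHom.ext_int _ _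
    rw [h2] at h1
    exact h1.symm
  have hreal : (starRingEnd ℂ) μ = μ := hothers _ hconj (by rw [RCLike.norm_conj]; exact hμ1)
  obtain ⟨lam, hlam⟩ := Complex.conj_eq_iff_real.1 hreal
  -- a real eigenvector
  have hrootl : (M.map (Int.cast : ℤ → ℂ)).charpoly.IsRoot (lam : ℂ) := by
    rw [charpoly_cast, ← hlam]; exact hμ
  obtain ⟨y, hy0, hy⟩ := LPD_right M lam ((LPD_root M lam).mp hrootl)
  have hcy : cm (compList l) (cr y) = μ • cr y := by
    rw [hcm]
    funext i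
    have h1 := hy i
    simp only [cr, Matrix.mulVec, dotProduct, Matrix.map_apply, Pi.smul_apply, smul_eq_mul]
    rw [hlam, ← Complex.ofReal_mul, ← h1]
    simp
  obtain ⟨c, hc⟩ := key μ 0 (cr y) hμ1 (by rw [hcy, zero_smul, add_zero])
  have hc0 : c ≠ 0 := by
    rintro rfl
    apply hy0
    funext i
    have h1 := congrFun hc i
    simp only [cr, zero_smul, Pi.zero_apply] at h1
    exact_mod_cast h1
  have hyD : Dc L G (cr y) := by rw [hc, dc_smul hc0]; exact huD
  have hyne : y 0 ≠ 0 := by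
    intro h
    have h1 := congrFun hc 0
    simp only [cr, Pi.smul_apply, smul_eq_mul, h, Complex.ofReal_zero] at h1
    exact mul_ne_zero hc0 hu0 h1.symm
  have hlam2 : 1 < lam := by
    have main : ∀ z : Fin (m+1) → ℝ, Dc L G (cr z) → 0 < z 0 →
        cm (compList l) (cr z) = μ • cr z → 1 < lam := by
      intro z hz hz0 hzμ
      obtain ⟨z', h1, h2⟩ := p_list hL hG hK l hl z hz hz0
      rw [hzμ] at h1
      have h3 := congrFun h1 0
      simp only [cr, Pi.smul_apply, smul_eq_mul, hlam] at h3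
      have h4 : lam * z 0 = z' 0 := by exact_mod_cast h3
      have h5 : (2 : ℝ) ≤ 2 ^ l.length := by
        calc (2 : ℝ) = 2 ^ 1 := by norm_num
          _ ≤ 2 ^ l.length := pow_le_pow_right₀ (by norm_num) hlen
      nlinarith
    rcases lt_or_gt_of_ne hyne with h | h
    · have h1 : cr (-y) = (-1 : ℂ) • cr y := by
        funext i
        simp [cr]
      refine main (-y) ?_ (by simpa using h) ?_
      · rw [h1, dc_smul (by norm_num)]
        exact hyD
      · rw [h1, cm_smul, hcy, smul_comm]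
    · exact main y hyD h hcy
  refine ⟨?_, lam, hlam2, hrootl, ?_⟩
  · rw [charpoly_castQ]
    have h1 := irr_of_simple M.charpoly hmonic hdeg h0 μ hothers hsimple
    exact (hmonic.irreducible_iff_irreducible_map_fraction_map (K := ℚ)).1 h1
  · intro ν hν hne
    refine ⟨?_, ?_⟩
    · rw [norm_pos_iff]
      rintro rfl
      have h6 : (((M).map (Int.cast : ℤ → ℂ)).charpoly).eval 0 = 0 := hν
      rw [charpoly_cast, ← Polynomial.coeff_zero_eq_eval_zero, Polynomial.coeff_map] at h6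
      have h7 : M.charpoly.coeff 0 = 0 := by
        rw [eq_intCast] at h6
        exact_mod_cast h6
      exact h0 h7
    · by_contra hcon
      push Not at hcon
      apply hne
      rw [← hlam]
      exact hothers ν (by rw [← charpoly_cast]; exact hν) hcon

theorem pisot_auto (hL : 1 ≤ L) (hG : G = (κ + 1) * (2 * L) ^ m) (hK : 64 * G ≤ K)
    (l : List (Fin (m+1) → List (Fin (m+1)))) (hne : l ≠ []) (hl : ∀ τ ∈ l, Dom L κ K τ)
    (hdet : (inc (compList l)).det = 1 ∨ (inc (compList l)).det = -1) :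
    PisotMat (inc (compList l)) := by
  obtain ⟨h1, h2⟩ := pisot_auto' hL hG hK l hne hl (by
    rcases hdet with h | h <;> rw [h] <;> norm_num)
  exact ⟨h1, hdet, h2⟩

end Pool.Agent.Y316.Pisot
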