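import Pool.Agent.Y316.Pisot.Main
import Pool.Agent.Y316.Pisot.Pis

/-!
Dominated matrices: conditions on the incidence matrix only.
-/

set_option autoImplicit false

namespace Pool.Agent.Y316.Pisot
open Pool.Agent.H812R2.PI
open scoped BigOperators

variable {m : ℕ}

/-- A nonnegative integer matrix (indices `0, ..., m`) is dominated, with constants `q`, `κ`, if
* the part with indices `1, ..., m` is strictly lower triangular,
* the entries with row index `≥ 1` have sum at most `q` in every column `j ≥ 1`, and sum at most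
  `κ` in column `0`,
* the corner entry is large: `M₀₀ ≥ 64 (κ+1)² (2q)ᵐ · (sum of column j)` for all `j ≥ 1`. -/
structure Dominated (q κ : ℕ) (M : Matrix (Fin (m+1)) (Fin (m+1)) ℤ) : Prop where
  tri : ∀ i j, i ≠ 0 → j ≠ 0 → i ≤ j → M i j = 0
  col : ∀ j, j ≠ 0 → ∑ i ∈ Finset.univ.erase 0, M i j ≤ q
  col0 : ∑ i ∈ Finset.univ.erase 0, M i 0 ≤ κ
  dom : ∀ j, j ≠ 0 → 64 * (κ + 1) ^ 2 * (2 * q) ^ m * ∑ i, M i j ≤ M 0 0

theorem nz_sum (w : List (Fin (m+1))) :
    (((w.filter (fun i => decide (i ≠ 0))).length : ℕ) : ℤ) =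
      ∑ i ∈ Finset.univ.erase (0 : Fin (m+1)), ab w i := by
  induction w with
  | nil => simp [ab_nil]
  | cons a w ih =>
    rw [ab_cons]
    simp only [Pi.add_apply, Finset.sum_add_distrib, ← ih]
    by_cases ha : a = 0
    · rw [List.filter_cons_of_neg (by simp [ha])]
      have : ∑ i ∈ Finset.univ.erase (0 : Fin (m+1)), ev a i = 0 := by
        refine Finset.sum_eq_zero fun i hi => ?_
        rw [ha]
        simp [ev, Finset.ne_of_mem_erase hi]
      rw [this, zero_add]
    · rw [List.filter_cons_of_pos (by simp [ha]), List.length_cons]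
      have : ∑ i ∈ Finset.univ.erase (0 : Fin (m+1)), ev a i = 1 := by
        simp [ev, ha]
      rw [this]
      push_cast
      ring

theorem no_run (A : ℕ) (w : List (Fin (m+1))) : ∀ k : ℕ,
    ¬ (List.replicate A (0 : Fin (m+1)) <:+: List.replicate k 0 ++ w) →
    k + w.count 0 ≤ ((w.filter (fun i => decide (i ≠ 0))).length + 1) * (A - 1) := by
  induction w with
  | nil =>
    intro k hk
    have h1 : k < A := by
      by_contra hcon
      apply hk
      rw [List.append_nil]
      refine ⟨[], List.replicate (k - A) 0, ?_⟩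
      rw [List.nil_append, List.replicate_append_replicate]
      congr 1
      omega
    simp
    omega
  | cons b w ih =>
    intro k hk
    by_cases hb : b = 0
    · subst hb
      have h1 := ih (k + 1) (by
        intro h
        apply hk
        have h2 : List.replicate (k+1) (0 : Fin (m+1)) ++ w = List.replicate k 0 ++ 0 :: w := by
          rw [List.replicate_succ', List.append_assoc]
          rfl
        rw [h2] at h
        exact h)
      rw [List.filter_cons_of_neg (by simp), List.count_cons_self]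
      omega
    · have h1 : k < A := by
        by_contra hcon
        apply hk
        refine ⟨[], List.replicate (k - A) 0 ++ b :: w, ?_⟩
        rw [List.nil_append, ← List.append_assoc, List.replicate_append_replicate]
        congr 2
        omega
      have h2 := ih 0 (by
        intro h
        apply hk
        rw [List.replicate_zero, List.nil_append] at h
        exact h.trans ⟨List.replicate k 0 ++ [b], [], by simp⟩)
      rw [List.filter_cons_of_pos (by simp [hb]), List.length_cons,
        List.count_cons_of_ne (by exact hb)]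
      rw [Nat.add_mul ((w.filter (fun i => decide (i ≠ 0))).length + 1) 1, one_mul]
      omega

theorem exists_run (A κ : ℕ) (w : List (Fin (m+1)))
    (h1 : (w.filter (fun i => decide (i ≠ 0))).length ≤ κ) (h2 : (κ + 1) * A ≤ w.count 0) :
    List.replicate A (0 : Fin (m+1)) <:+: w := by
  by_contra hcon
  have h3 := no_run A w 0 (by simpa using hcon)
  have hA : A ≠ 0 := by
    rintro rfl
    exact hcon (by simp)
  have h4 : ((w.filter (fun i => decide (i ≠ 0))).length + 1) * (A - 1) ≤ (κ + 1) * (A - 1) :=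
    Nat.mul_le_mul_right _ (by omega)
  have h5 : (κ + 1) * (A - 1) < (κ + 1) * A := Nat.mul_lt_mul_of_pos_left (by omega) (by omega)
  omega

theorem Dominated.toDom' {q κ : ℕ} (hm : 1 ≤ m) (τ : Fin (m+1) → List (Fin (m+1)))
    (h : Dominated q κ (inc τ)) (hne : ∀ j, τ j ≠ []) :
    Dom q κ (64 * ((κ + 1) * (2 * q) ^ m)) τ := by
  refine ⟨?_, ?_, ?_, ?_, hne⟩
  · intro j hj i hi
    by_contra hcon
    push Not at hcon
    have h1 := h.tri i j hcon.1 hj hcon.2
    simp only [inc] at h1
    have h2 := List.count_pos_iff.2 hi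
    omega
  · intro j hj
    have h1 := h.col j hj
    have h2 := nz_sum (τ j)
    have h3 : ∑ i ∈ Finset.univ.erase (0 : Fin (m+1)), ab (τ j) i =
      ∑ i ∈ Finset.univ.erase (0 : Fin (m+1)), inc τ i j := rfl
    omega
  · have h1 := h.col0
    have h2 := nz_sum (τ 0)
    have h3 : ∑ i ∈ Finset.univ.erase (0 : Fin (m+1)), ab (τ 0) i =
      ∑ i ∈ Finset.univ.erase (0 : Fin (m+1)), inc τ i 0 := rfl
    omega
  · have hnz : ((τ 0).filter (fun i => decide (i ≠ 0))).length ≤ κ := by
      have h1 := h.col0
      have h2 := nz_sum (τ 0)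
      have h3 : ∑ i ∈ Finset.univ.erase (0 : Fin (m+1)), ab (τ 0) i =
        ∑ i ∈ Finset.univ.erase (0 : Fin (m+1)), inc τ i 0 := rfl
      omega
    have hA2 : ∀ j, j ≠ 0 → 64 * ((κ + 1) * (2 * q) ^ m) * (τ j).length ≤
        (τ 0).count 0 / (κ + 1) := by
      intro j hj
      rw [Nat.le_div_iff_mul_le (by omega)]
      have h1 := h.dom j hj
      have h2 : ∑ i, inc τ i j = ((τ j).length : ℤ) := ab_sum (τ j)
      rw [h2] at h1
      simp only [inc] at h1
      have h3 : 64 * (κ + 1) ^ 2 * (2 * q) ^ m * (τ j).length ≤ (τ 0).count 0 := by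
        exact_mod_cast h1
      calc 64 * ((κ + 1) * (2 * q) ^ m) * (τ j).length * (κ + 1) =
          64 * (κ + 1) ^ 2 * (2 * q) ^ m * (τ j).length := by ring
        _ ≤ _ := h3
    refine ⟨(τ 0).count 0 / (κ + 1), ?_, hA2, ?_⟩
    · have h1 : (⟨1, by omega⟩ : Fin (m+1)) ≠ 0 := by
        intro h
        have := congrArg Fin.val h
        simp at this
      have h2 := hA2 _ h1
      have h3 : 1 ≤ (τ ⟨1, by omega⟩).length := List.length_pos_iff.2 (hne _)
      exact (Nat.le_mul_of_pos_right _ h3).trans h2
    · exact exists_run _ κ _ hnz (Nat.mul_div_le _ _)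

theorem Dominated.toDom {q κ : ℕ} (hm : 1 ≤ m) (τ : Fin (m+1) → List (Fin (m+1)))
    (h : Dominated q κ (inc τ)) (hdet : (inc τ).det ≠ 0) :
    Dom q κ (64 * ((κ + 1) * (2 * q) ^ m)) τ := by
  refine Dominated.toDom' hm τ h fun j hj => hdet ?_
  refine Matrix.det_eq_zero_of_column_eq_zero j fun i => ?_
  simp [inc, hj]

/-- The Pisot conjecture for all compositions of substitutions with dominated unimodular
incidence matrices -/
theorem dominated {q κ : ℕ} (hm : 1 ≤ m) (hq : 1 ≤ q)
    (l : List (Fin (m+1) → List (Fin (m+1)))) (hne : l ≠ [])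
    (hl : ∀ τ ∈ l, Dominated q κ (inc τ) ∧ ((inc τ).det = 1 ∨ (inc τ).det = -1)) :
    PisotMat (inc (compList l)) ∧ SemiConjToral (compList l) := by
  have hd : ∀ τ ∈ l, Dom q κ (64 * ((κ + 1) * (2 * q) ^ m)) τ := by
    intro τ hτ
    refine Dominated.toDom hm τ (hl τ hτ).1 ?_
    rcases (hl τ hτ).2 with h | h <;> rw [h] <;> norm_num
  have hdet : (inc (compList l)).det = 1 ∨ (inc (compList l)).det = -1 := by
    have h1 : ∀ l' : List (Fin (m+1) → List (Fin (m+1))),
        (∀ τ ∈ l', (inc τ).det = 1 ∨ (inc τ).det = -1) →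
        (inc (compList l')).det = 1 ∨ (inc (compList l')).det = -1 := by
      intro l'
      induction l' with
      | nil =>
        intro _
        left
        simp only [compList]
        rw [JComp_inc_id, Matrix.det_one]
      | cons τ l' ih =>
        intro h
        simp only [compList]
        rw [inc_comp, Matrix.det_mul]
        rcases h τ (List.mem_cons_self ..) with h2 | h2 <;>
          rcases ih (fun τ' h' => h τ' (List.mem_cons_of_mem _ h')) with h3 | h3 <;>
          rw [h2, h3] <;> norm_num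
    exact h1 l fun τ hτ => (hl τ hτ).2
  have hM := pisot_auto hq rfl le_rfl l hne hd hdet
  exact ⟨hM, main hq le_rfl l hne hd hM⟩

theorem det_cyc (T : Matrix (Fin (m+1)) (Fin (m+1)) ℤ)
    (htri : ∀ i j, i ≠ 0 → j ≠ 0 → i ≤ j → T i j = 0) (hcyc : ∀ i, T (i + 1) i = 1) :
    T.det = 1 ∨ T.det = -1 := by
  have h1 := Matrix.det_permute (finRotate (m+1)) T
  have h2 : (T.submatrix (finRotate (m+1)) id).IsLowerTriangular := by
    intro i j hij
    have hij' : i < j := hij
    rw [Matrix.submatrix_apply, finRotate_apply]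
    have hlt : (i : ℕ) < m := by
      have := j.2
      have : (i : ℕ) < j := hij'
      omega
    have hval : ((i + 1 : Fin (m+1)) : ℕ) = i + 1 := by
      rw [Fin.val_add_one_of_lt]
      exact Fin.lt_def.2 (by simpa using hlt)
    refine htri _ _ ?_ ?_ ?_
    · intro h
      have := congrArg Fin.val h
      rw [hval] at this
      simp at this
    · intro h
      subst h
      exact absurd hij' (Fin.not_lt_zero i)
    · rw [Fin.le_def, hval]
      exact hij'
  rw [Matrix.det_of_isLowerTriangular _ h2] at h1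
  have h3 : ∏ i, T.submatrix (finRotate (m+1)) id i i = 1 := by
    refine Finset.prod_eq_one fun i _ => ?_
    rw [Matrix.submatrix_apply, finRotate_apply]
    exact hcyc i
  rw [h3] at h1
  rcases Int.units_eq_one_or (Equiv.Perm.sign (finRotate (m+1))) with h | h
  · left
    rw [h] at h1
    simpa using h1.symm
  · right
    rw [h] at h1
    push_cast at h1
    linarith

/-- For every pattern off the corner, all substitutions with a large corner entry -/
theorem large_corner (hm : 1 ≤ m) (T : Matrix (Fin (m+1)) (Fin (m+1)) ℤ)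
    (hnn : ∀ i j, 0 ≤ T i j) (htri : ∀ i j, i ≠ 0 → j ≠ 0 → i ≤ j → T i j = 0)
    (hcyc : ∀ i, T (i + 1) i = 1) :
    ∃ A : ℤ, ∀ σ : Fin (m+1) → List (Fin (m+1)),
      (∀ i j, (i, j) ≠ (0, 0) → inc σ i j = T i j) → A ≤ inc σ 0 0 →
      PisotMat (inc σ) ∧ SemiConjToral σ := by
  obtain ⟨N, hN⟩ : ∃ N : ℕ, ∑ i, ∑ j, T i j ≤ N := ⟨(∑ i, ∑ j, T i j).toNat, Int.self_le_toNat _⟩
  have hcolT : ∀ j, ∑ i, T i j ≤ N := by
    intro j
    refine le_trans ?_ hN
    exact Finset.sum_le_sum fun i _ =>
      Finset.single_le_sum (f := fun j => T i j) (fun j _ => hnn i j) (Finset.mem_univ j)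
  have hcolE : ∀ j, ∑ i ∈ Finset.univ.erase (0 : Fin (m+1)), T i j ≤ N := by
    intro j
    refine le_trans ?_ (hcolT j)
    exact Finset.sum_le_sum_of_subset_of_nonneg (Finset.erase_subset _ _)
      fun i _ _ => hnn i j
  refine ⟨64 * (N + 1) ^ 2 * (2 * (N + 1)) ^ m * N, fun σ hσ hA => ?_⟩
  have hne0 : ∀ i j : Fin (m+1), i ≠ 0 → ((i, j) : Fin (m+1) × Fin (m+1)) ≠ (0, 0) := by
    intro i j hi h
    exact hi (congrArg Prod.fst h)
  have hne1 : ∀ i j : Fin (m+1), j ≠ 0 → ((i, j) : Fin (m+1) × Fin (m+1)) ≠ (0, 0) := by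
    intro i j hj h
    exact hj (congrArg Prod.snd h)
  have hlast : (0 : Fin (m+1)) + 1 ≠ 0 := by
    rw [zero_add]
    intro h
    have := congrArg Fin.val h
    rw [Fin.val_one'] at this
    simp at this
    omega
  have hdetσ : (inc σ).det = 1 ∨ (inc σ).det = -1 := by
    refine det_cyc (inc σ) (fun i j hi hj hij => ?_) fun i => ?_
    · rw [hσ i j (hne0 i j hi)]
      exact htri i j hi hj hij
    · rw [hσ (i + 1) i ?_]
      · exact hcyc i
      · intro h
        have h1 : i = 0 := congrArg Prod.snd h
        rw [h1] at h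
        exact hlast (congrArg Prod.fst h)
  have hdom : Dominated (N + 1) N (inc σ) := by
    refine ⟨fun i j hi hj hij => ?_, fun j hj => ?_, ?_, fun j hj => ?_⟩
    · rw [hσ i j (hne0 i j hi)]
      exact htri i j hi hj hij
    · rw [Finset.sum_congr rfl fun i _ => hσ i j (hne1 i j hj)]
      have := hcolE j
      push_cast
      linarith
    · rw [Finset.sum_congr rfl fun i hi => hσ i 0 (hne0 i 0 (Finset.ne_of_mem_erase hi))]
      exact hcolE 0
    · rw [Finset.sum_congr rfl fun i _ => hσ i j (hne1 i j hj)]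
      refine le_trans ?_ hA
      push_cast
      exact mul_le_mul_of_nonneg_left (hcolT j) (by positivity)
  have := dominated hm (show 1 ≤ N + 1 by omega) [σ] (by simp) (by
    intro τ hτ
    rw [List.mem_singleton] at hτ
    rw [hτ]
    exact ⟨hdom, hdetσ⟩)
  have hc : compList [σ] = σ := by
    funext a
    simp [compList, comp, ext]
  rw [hc] at this
  exact this

end Pool.Agent.Y316.Pisot
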