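import Pool.Agent.Y316.Pisot.Wt

/-!
Zero-free factors of compositions of substitutions with a dominating letter have small weight.
-/

set_option autoImplicit false

namespace Pool.Agent.Y316.Pisot
open Pool.Agent.H812R2.PI
open scoped BigOperators

variable {m : ℕ}

/-- the weight of the longest zero-free prefix -/
def fz (L : ℕ) (w : List (Fin (m+1))) : ℕ := wt L (w.takeWhile (fun i => decide (i ≠ 0)))

theorem fz_nil (L : ℕ) : fz L ([] : List (Fin (m+1))) = 0 := rfl

theorem fz_cons_zero (L : ℕ) (w : List (Fin (m+1))) : fz L (0 :: w) = 0 := by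
  simp [fz, wt_nil]

theorem fz_cons_ne (L : ℕ) {a : Fin (m+1)} (ha : a ≠ 0) (w : List (Fin (m+1))) :
    fz L (a :: w) = g m L a + fz L w := by
  simp [fz, ha, wt_cons]

theorem fz_append_le (L : ℕ) (x y : List (Fin (m+1))) : fz L (x ++ y) ≤ wt L x + fz L y := by
  induction x with
  | nil => simp [wt_nil]
  | cons a x ih =>
    rw [List.cons_append]
    by_cases ha : a = 0
    · rw [ha, fz_cons_zero]
      exact Nat.zero_le _
    · rw [fz_cons_ne L ha, wt_cons]
      omega

theorem fz_append_mem (L : ℕ) (x y : List (Fin (m+1))) (h : (0 : Fin (m+1)) ∈ x) :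
    fz L (x ++ y) ≤ wt L x := by
  induction x with
  | nil => simp at h
  | cons a x ih =>
    rw [List.cons_append]
    by_cases ha : a = 0
    · rw [ha, fz_cons_zero]
      exact Nat.zero_le _
    · rw [fz_cons_ne L ha, wt_cons]
      rcases List.mem_cons.1 h with h1 | h1
      · exact absurd h1.symm ha
      · have := ih h1
        omega

section dom
variable {L κ K : ℕ} {τ : Fin (m+1) → List (Fin (m+1))}

theorem Dom.zero_mem (h : Dom L κ K τ) (hK : 1 ≤ K) : (0 : Fin (m+1)) ∈ τ 0 := by
  obtain ⟨A, hA1, -, hA2⟩ := h.run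
  refine hA2.subset ?_
  rw [List.mem_replicate]
  exact ⟨by omega, rfl⟩

theorem Dom.fz_ext (h : Dom L κ K τ) (hL : 1 ≤ L) (hK : 1 ≤ K) (u : List (Fin (m+1))) :
    2 * fz L (ext τ u) ≤ fz L u + 2 * ((κ + 1) * (2 * L) ^ m) := by
  induction u with
  | nil => simp [ext, fz_nil]
  | cons a u ih =>
    rw [ext_cons]
    by_cases ha : a = 0
    · rw [ha, fz_cons_zero]
      have h1 := fz_append_mem L (τ 0) (ext τ u) (h.zero_mem hK)
      have h2 := h.wt_img_le hL 0
      omega
    · rw [fz_cons_ne L ha]
      have h1 := fz_append_le L (τ a) (ext τ u)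
      have h2 := h.wt_img hL ha
      omega

theorem drop_ext (τ : Fin (m+1) → List (Fin (m+1))) (u : List (Fin (m+1))) (k : ℕ) :
    (ext τ u).drop k = [] ∨ ∃ b i j, (ext τ u).drop k = (τ b).drop j ++ ext τ (u.drop i) := by
  induction u generalizing k with
  | nil => left; simp [ext]
  | cons a u ih =>
    rw [ext_cons, List.drop_append]
    by_cases hk : k ≤ (τ a).length
    · right
      refine ⟨a, 1, k, ?_⟩
      rw [Nat.sub_eq_zero_of_le hk]
      simp
    · push Not at hk
      rw [List.drop_eq_nil_of_le hk.le, List.nil_append]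
      rcases ih (k - (τ a).length) with h | ⟨b, i, j, h⟩
      · left; exact h
      · right
        refine ⟨b, i + 1, j, ?_⟩
        rw [h]
        simp

theorem fz_compList (hL : 1 ≤ L) (hK : 1 ≤ K) (l : List (Fin (m+1) → List (Fin (m+1))))
    (hl : ∀ τ ∈ l, Dom L κ K τ) (a : Fin (m+1)) :
    ∀ k, fz L ((compList l a).drop k) ≤ 4 * ((κ + 1) * (2 * L) ^ m) := by
  induction l with
  | nil =>
    intro k
    simp only [compList]
    have h1 : fz L (List.drop k [a]) ≤ (2 * L) ^ m := by
      rcases k with _ | k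
      · rw [List.drop_zero]
        have h2 := fz_append_le L [a] []
        rw [List.append_nil, fz_nil, wt_cons, wt_nil] at h2
        have h3 := g_le (m := m) hL a
        omega
      · simp [fz_nil]
    have h3 : (κ + 1) * (2 * L) ^ m = κ * (2 * L) ^ m + (2 * L) ^ m := by ring
    have h4 : 0 ≤ κ * (2 * L) ^ m := Nat.zero_le _
    omega
  | cons τ l ih =>
    intro k
    have hτ := hl τ (List.mem_cons_self ..)
    have ih := ih (fun τ' h => hl τ' (List.mem_cons_of_mem _ h))
    simp only [compList, comp]
    rcases drop_ext τ (compList l a) k with h | ⟨b, i, j, h⟩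
    · rw [h, fz_nil]
      exact Nat.zero_le _
    · rw [h]
      have h1 := fz_append_le L ((τ b).drop j) (ext τ ((compList l a).drop i))
      have h2 := hτ.fz_ext hL hK ((compList l a).drop i)
      have h3 := ih i
      have h4 := (wt_drop_le L (τ b) j).trans (hτ.wt_img_le hL b)
      omega

end dom

end Pool.Agent.Y316.Pisot
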