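import Pool.Agent.Y316.Pisot.Ht
import Pool.Agent.Y316.Pisot.Zf

/-!
Long overlapping paths contain an overlapping pair of edges `0` whose offset has coordinate `0`
equal to `0`.
-/

set_option autoImplicit false

namespace Pool.Agent.Y316.Pisot
open Pool.Agent.H812R2.PI
open scoped BigOperators

variable {m : ℕ}

theorem cover {φ : Fin (m+1) → ℝ} (w : List (Fin (m+1))) :
    ∀ (q : ℝ), 0 ≤ q → q < hh φ (ab w) →
    ∃ s a t, w = s ++ a :: t ∧ hh φ (ab s) ≤ q ∧ q < hh φ (ab s) + φ a := by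
  induction w with
  | nil =>
    intro q h0 h
    rw [ab_nil, hh_zero] at h
    linarith
  | cons b w ih =>
    intro q h0 h
    rw [ab_cons, hh_add, hh_ev] at h
    by_cases hq : q < φ b
    · exact ⟨[], b, w, rfl, by rw [ab_nil, hh_zero]; exact h0, by rw [ab_nil, hh_zero]; linarith⟩
    · push Not at hq
      obtain ⟨s, a, t, h1, h2, h3⟩ := ih (q - φ b) (by linarith) (by linarith)
      refine ⟨b :: s, a, t, by rw [h1]; rfl, ?_, ?_⟩
      · rw [ab_cons, hh_add, hh_ev]; linarith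
      · rw [ab_cons, hh_add, hh_ev]; linarith

theorem edge_mem (z : Fin (m+1) → ℤ) (s : List (Fin (m+1))) (a : Fin (m+1))
    (t : List (Fin (m+1))) : (z + ab s, a) ∈ edges z (s ++ a :: t) := by
  rw [edges_append, List.mem_append]
  right
  exact List.mem_cons_self ..

section ph
variable {L κ K : ℕ} {φ : Fin (m+1) → ℝ}

theorem next_zero (hL : 1 ≤ L) (hφ : Ph K φ) (t : List (Fin (m+1))) :
    φ 0 * fz L t < K * hh φ (ab t) →
    ∃ z r, t = z ++ 0 :: r ∧ K * hh φ (ab z) ≤ φ 0 * fz L t := by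
  have h0 := hφ.pos 0
  induction t with
  | nil =>
    intro h
    rw [ab_nil, hh_zero, fz_nil] at h
    simp at h
  | cons a t ih =>
    intro h
    by_cases ha : a = 0
    · refine ⟨[], t, by rw [ha]; rfl, ?_⟩
      rw [ab_nil, hh_zero, mul_zero]
      positivity
    · rw [fz_cons_ne L ha] at h ⊢
      rw [ab_cons, hh_add, hh_ev] at h
      push_cast at h ⊢
      have h1 := hφ.small a ha
      have h2 : (1 : ℝ) ≤ g m L a := by exact_mod_cast g_pos (m := m) hL ha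
      have h3 : φ 0 ≤ φ 0 * g m L a := by nlinarith
      obtain ⟨z, r, h4, h5⟩ := ih (by linarith)
      refine ⟨a :: z, r, by rw [h4]; rfl, ?_⟩
      rw [ab_cons, hh_add, hh_ev]
      linarith

theorem coord (hL : 1 ≤ L) {G : ℕ} (hG : 1 ≤ G) (hK : 64 * G ≤ K) (hφ : Ph K φ)
    (v : Fin (m+1) → ℤ) (hv : (nv L v : ℝ) ≤ 13 * G) :
    |hh φ v - φ 0 * v 0| ≤ 13 / 64 * φ 0 := by
  have h0 := hφ.pos 0
  have hGr : (1 : ℝ) ≤ G := by exact_mod_cast hG
  have h1 := near64 hL hK hφ v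
  have h3 : (G : ℝ) * (64 * |hh φ v - φ 0 * v 0|) ≤ G * (13 * φ 0) := by
    have h5 : φ 0 * nv L v ≤ φ 0 * (13 * G) := mul_le_mul_of_nonneg_left hv h0.le
    nlinarith
  have h4 := le_of_mul_le_mul_left h3 (by linarith)
  linarith

theorem search (hL : 1 ≤ L) {G : ℕ} (hG : 1 ≤ G) (hK : 64 * G ≤ K) (hφ : Ph K φ)
    (x y : Fin (m+1) → ℤ) (U V : List (Fin (m+1)))
    (hU : ∀ k, fz L (U.drop k) ≤ 4 * G) (hV : ∀ k, fz L (V.drop k) ≤ 4 * G)
    (hov : ∀ e ∈ edges x U, ∀ f ∈ edges y V, Ov φ e f → (nv L (f.1 - e.1) : ℝ) ≤ 13 * G)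
    (P : ℝ) (hPx : hh φ x ≤ P) (hPy : hh φ y ≤ P)
    (hQx : P + 3 * φ 0 ≤ hh φ x + hh φ (ab U)) (hQy : P + 3 * φ 0 ≤ hh φ y + hh φ (ab V)) :
    ∃ e ∈ edges x U, ∃ f ∈ edges y V, e.2 = 0 ∧ f.2 = 0 ∧ (f.1 - e.1) 0 = 0 ∧
      (nv L (f.1 - e.1) : ℝ) ≤ 13 * G := by
  have h0 := hφ.pos 0
  have hGr : (1 : ℝ) ≤ G := by exact_mod_cast hG
  have hAr : (64 : ℝ) * G ≤ K := by exact_mod_cast hK
  have hA0 : (0 : ℝ) < K := by linarith
  have hK1 : 1 ≤ K := by omega
  -- the bound for the next zero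
  have hnz : ∀ t : List (Fin (m+1)), fz L t ≤ 4 * G → φ 0 / 16 < hh φ (ab t) →
      ∃ z r, t = z ++ 0 :: r ∧ hh φ (ab z) ≤ φ 0 / 16 := by
    intro t ht1 ht2
    have ht3 : (fz L t : ℝ) ≤ 4 * G := by exact_mod_cast ht1
    have ht4 : φ 0 * fz L t ≤ K * (φ 0 / 16) := by
      have : φ 0 * fz L t ≤ φ 0 * (4 * G) := mul_le_mul_of_nonneg_left ht3 h0.le
      nlinarith
    obtain ⟨z, r, h1, h2⟩ := next_zero hL hφ t
      (ht4.trans_lt (mul_lt_mul_of_pos_left ht2 hA0))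
    exact ⟨z, r, h1, le_of_mul_le_mul_left (h2.trans ht4) hA0⟩
  -- the cover of `P` in `V`
  obtain ⟨s1, b, t1, hV1, hV2, hV3⟩ := cover (φ := φ) V (P - hh φ y) (by linarith) (by linarith)
  have hb := hφ.le hK1 b
  have hVt : fz L t1 ≤ 4 * G := by
    have := hV (s1.length + 1)
    rw [hV1] at this
    simpa using this
  have hVh : hh φ (ab V) = hh φ (ab s1) + φ b + hh φ (ab t1) := by
    rw [hV1, ab_append, ab_cons, hh_add, hh_add, hh_ev]; ring
  obtain ⟨z, r, hz1, hz2⟩ := hnz t1 hVt (by linarith)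
  have hz0 := hh_ab_nonneg hφ.pos z
  obtain ⟨y', hy'⟩ : ∃ y', y' = y + ab (s1 ++ b :: z) := ⟨_, rfl⟩
  have hfmem : (y', (0 : Fin (m+1))) ∈ edges y V := by
    rw [hV1, hz1, hy']
    have := edge_mem y (s1 ++ b :: z) 0 r
    simpa using this
  have hp : hh φ y' = hh φ y + hh φ (ab s1) + φ b + hh φ (ab z) := by
    rw [hy', ab_append, ab_cons, hh_add, hh_add, hh_add, hh_ev]; ring
  obtain ⟨p, hpdef⟩ : ∃ p, p = hh φ y' := ⟨_, rfl⟩
  rw [← hpdef] at hp
  have hp1 : P < p := by linarith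
  have hp2 : p ≤ P + 17 / 16 * φ 0 := by linarith
  -- the cover of `p` in `U`
  obtain ⟨s2, a, t2, hU1, hU2, hU3⟩ := cover (φ := φ) U (p - hh φ x) (by linarith) (by linarith)
  have ha := hφ.le hK1 a
  have hUt : fz L t2 ≤ 4 * G := by
    have := hU (s2.length + 1)
    rw [hU1] at this
    simpa using this
  have hUh : hh φ (ab U) = hh φ (ab s2) + φ a + hh φ (ab t2) := by
    rw [hU1, ab_append, ab_cons, hh_add, hh_add, hh_ev]; ring
  have hemem : (x + ab s2, a) ∈ edges x U := by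
    rw [hU1]
    exact edge_mem x s2 a t2
  obtain ⟨v, hv⟩ : ∃ v, v = y' - (x + ab s2) := ⟨_, rfl⟩
  have hvh : hh φ v = p - hh φ x - hh φ (ab s2) := by
    rw [hv, hh_sub, hh_add, ← hpdef]; ring
  have hvn := hov _ hemem _ hfmem ⟨by
    change hh φ (y' - (x + ab s2)) < φ a
    rw [← hv]; linarith, by
    change -φ 0 < hh φ (y' - (x + ab s2))
    rw [← hv]; linarith⟩
  simp only [← hv] at hvn
  have hvc := abs_le.1 (coord hL hG hK hφ v hvn)
  by_cases hcase : a = 0 ∧ v 0 = 0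
  · refine ⟨_, hemem, _, hfmem, hcase.1, rfl, ?_, ?_⟩
    · simp only [← hv]; exact hcase.2
    · simp only [← hv]; exact hvn
  · have hE : hh φ x + hh φ (ab s2) + φ a ≤ p + 13 / 64 * φ 0 := by
      by_cases ha0 : a = 0
      · have hv0 : v 0 ≠ 0 := fun h => hcase ⟨ha0, h⟩
        have h1 : 0 ≤ v 0 := by
          by_contra hneg
          push Not at hneg
          have h2 : v 0 ≤ -1 := by omega
          have h3 : (v 0 : ℝ) ≤ -1 := by exact_mod_cast h2
          nlinarith [hvc.1, hvc.2]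
        have h2 : 1 ≤ v 0 := by omega
        have h3 : (1 : ℝ) ≤ v 0 := by exact_mod_cast h2
        rw [ha0]
        nlinarith [hvc.1, hvc.2]
      · have h1 := hφ.small a ha0
        have h3 : (64 : ℝ) ≤ K := by linarith
        have h4 := mul_le_mul_of_nonneg_right h3 (hφ.pos a).le
        linarith
    obtain ⟨z2, r2, hw1, hw2⟩ := hnz t2 hUt (by linarith)
    have hw0 := hh_ab_nonneg hφ.pos z2
    obtain ⟨x', hx'⟩ : ∃ x', x' = x + ab (s2 ++ a :: z2) := ⟨_, rfl⟩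
    have hemem2 : (x', (0 : Fin (m+1))) ∈ edges x U := by
      rw [hU1, hw1, hx']
      have := edge_mem x (s2 ++ a :: z2) 0 r2
      simpa using this
    have hx'h : hh φ x' = hh φ x + hh φ (ab s2) + φ a + hh φ (ab z2) := by
      rw [hx', ab_append, ab_cons, hh_add, hh_add, hh_add, hh_ev]; ring
    have hw : hh φ (y' - x') = p - hh φ x' := by rw [hh_sub, ← hpdef]
    have hvn2 := hov _ hemem2 _ hfmem ⟨by
      change hh φ (y' - x') < φ 0
      rw [hw]; linarith, by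
      change -φ 0 < hh φ (y' - x')
      rw [hw]; linarith⟩
    simp only at hvn2
    have hvc2 := abs_le.1 (coord hL hG hK hφ (y' - x') hvn2)
    refine ⟨_, hemem2, _, hfmem, rfl, rfl, ?_, hvn2⟩
    change (y' - x') 0 = 0
    obtain ⟨c, hc⟩ : ∃ c, c = (y' - x') 0 := ⟨_, rfl⟩
    rw [← hc] at hvc2 ⊢
    rw [hw] at hvc2
    by_contra hne
    rcases lt_or_gt_of_ne hne with h1 | h1
    · have h2 : c ≤ -1 := by omega
      have h3 : (c : ℝ) ≤ -1 := by exact_mod_cast h2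
      nlinarith [hvc2.1, hvc2.2]
    · have h2 : 1 ≤ c := by omega
      have h3 : (1 : ℝ) ≤ c := by exact_mod_cast h2
      nlinarith [hvc2.1, hvc2.2]

end ph

end Pool.Agent.Y316.Pisot
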