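import Pool.Agent.H812R2.PI.JDefs

/-!
Substitutions with a dominating letter: weights of words and vectors.
-/

set_option autoImplicit false

namespace Pool.Agent.Y316.Pisot
open Pool.Agent.H812R2.PI
open scoped BigOperators

variable {m : ℕ}

/-- the weight of a letter -/
def g (m L : ℕ) (j : Fin (m+1)) : ℕ := if j = 0 then 0 else (2 * L) ^ (m - (j : ℕ))

/-- the weight of a word -/
def wt (L : ℕ) (w : List (Fin (m+1))) : ℕ := (w.map (g m L)).sum

/-- the weighted size of the coordinates different from the `0`-th one -/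
def nv (L : ℕ) (v : Fin (m+1) → ℤ) : ℤ := ∑ j, (g m L j : ℤ) * |v j|

/-- `0` dominates in the substitution `τ` -/
structure Dom (L κ K : ℕ) (τ : Fin (m+1) → List (Fin (m+1))) : Prop where
  tri : ∀ j, j ≠ 0 → ∀ i ∈ τ j, i = 0 ∨ j < i
  len : ∀ j, j ≠ 0 → ((τ j).filter (fun i => decide (i ≠ 0))).length ≤ L
  non : ((τ 0).filter (fun i => decide (i ≠ 0))).length ≤ κ
  run : ∃ A, K ≤ A ∧ (∀ j, j ≠ 0 → K * (τ j).length ≤ A) ∧
    List.replicate A (0 : Fin (m+1)) <:+: τ 0
  ne : ∀ j, τ j ≠ []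

theorem g_zero (L : ℕ) : g m L 0 = 0 := by simp [g]

theorem g_pos {L : ℕ} (hL : 1 ≤ L) {j : Fin (m+1)} (hj : j ≠ 0) : 1 ≤ g m L j := by
  simp only [g, if_neg hj]
  exact Nat.one_le_pow _ _ (by omega)

theorem g_le {L : ℕ} (hL : 1 ≤ L) (j : Fin (m+1)) : g m L j ≤ (2 * L) ^ m := by
  unfold g
  split_ifs
  · exact Nat.zero_le _
  · exact Nat.pow_le_pow_right (by omega) (Nat.sub_le _ _)

theorem g_lt {L : ℕ} (hL : 1 ≤ L) {i j : Fin (m+1)} (hj : j ≠ 0) (hij : i = 0 ∨ j < i) :
    2 * L * g m L i ≤ g m L j := by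
  rcases hij with h | h
  · rw [h, g_zero]
    simp
  · have hi : i ≠ 0 := by
      intro h0
      rw [h0] at h
      exact absurd h (Fin.not_lt_zero j)
    simp only [g, if_neg hi, if_neg hj]
    rw [← pow_succ']
    refine Nat.pow_le_pow_right (by omega) ?_
    have h1 : (j : ℕ) < i := h
    have h2 := i.2
    omega

theorem wt_nil (L : ℕ) : wt L ([] : List (Fin (m+1))) = 0 := rfl

theorem wt_cons (L : ℕ) (a : Fin (m+1)) (w : List (Fin (m+1))) :
    wt L (a :: w) = g m L a + wt L w := by simp [wt]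

theorem wt_append (L : ℕ) (w w' : List (Fin (m+1))) : wt L (w ++ w') = wt L w + wt L w' := by
  simp [wt]

theorem wt_take_le (L : ℕ) (w : List (Fin (m+1))) (k : ℕ) : wt L (w.take k) ≤ wt L w := by
  conv_rhs => rw [← List.take_append_drop k w]
  rw [wt_append]
  omega

theorem wt_drop_le (L : ℕ) (w : List (Fin (m+1))) (k : ℕ) : wt L (w.drop k) ≤ wt L w := by
  conv_rhs => rw [← List.take_append_drop k w]
  rw [wt_append]
  omega

theorem nv_nonneg (L : ℕ) (v : Fin (m+1) → ℤ) : 0 ≤ nv L v :=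
  Finset.sum_nonneg fun _ _ => by positivity

theorem nv_add (L : ℕ) (v w : Fin (m+1) → ℤ) : nv L (v + w) ≤ nv L v + nv L w := by
  unfold nv
  rw [← Finset.sum_add_distrib]
  refine Finset.sum_le_sum fun j _ => ?_
  rw [← mul_add]
  exact mul_le_mul_of_nonneg_left (abs_add_le _ _) (by positivity)

theorem nv_neg (L : ℕ) (v : Fin (m+1) → ℤ) : nv L (-v) = nv L v := by
  unfold nv
  exact Finset.sum_congr rfl fun j _ => by rw [Pi.neg_apply, abs_neg]

theorem nv_sub (L : ℕ) (v w : Fin (m+1) → ℤ) : nv L (v - w) ≤ nv L v + nv L w := by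
  rw [sub_eq_add_neg, ← nv_neg L w]
  exact nv_add L v (-w)

theorem nv_of_ne (L : ℕ) (v w : Fin (m+1) → ℤ) (h : ∀ j, j ≠ 0 → v j = w j) :
    nv L v = nv L w := by
  unfold nv
  refine Finset.sum_congr rfl fun j _ => ?_
  by_cases hj : j = 0
  · rw [hj, g_zero]; simp
  · rw [h j hj]

theorem ab_nonneg (w : List (Fin (m+1))) (i : Fin (m+1)) : 0 ≤ ab w i := by
  unfold ab; positivity

theorem nv_ab (L : ℕ) (w : List (Fin (m+1))) : nv L (ab w) = (wt L w : ℤ) := by
  induction w with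
  | nil => simp [nv, ab_nil, wt_nil]
  | cons a w ih =>
    rw [wt_cons]
    push_cast
    rw [← ih]
    unfold nv
    have h1 : ∀ j, (g m L j : ℤ) * |ab (a :: w) j| =
        (if j = a then (g m L a : ℤ) else 0) + (g m L j : ℤ) * |ab w j| := by
      intro j
      rw [abs_of_nonneg (ab_nonneg _ _), abs_of_nonneg (ab_nonneg _ _), ab_cons]
      simp only [Pi.add_apply, ev]
      split_ifs with h
      · rw [h]; ring
      · ring
    rw [Finset.sum_congr rfl fun j _ => h1 j, Finset.sum_add_distrib]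
    simp

theorem eq_zero_of_nv {L : ℕ} (hL : 1 ≤ L) (v : Fin (m+1) → ℤ) (h0 : v 0 = 0)
    (h : nv L v ≤ 0) : v = 0 := by
  have h1 : nv L v = 0 := le_antisymm h (nv_nonneg L v)
  have h2 := (Finset.sum_eq_zero_iff_of_nonneg (fun j _ => by positivity)).1 h1
  funext j
  by_cases hj : j = 0
  · rw [hj, h0]; rfl
  · have h3 := h2 j (Finset.mem_univ j)
    have h4 := g_pos hL hj
    have h5 : (g m L j : ℤ) ≠ 0 := by omega
    rcases mul_eq_zero.1 h3 with h6 | h6
    · exact absurd h6 h5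
    · simpa using h6

theorem abs_le_nv {L : ℕ} (hL : 1 ≤ L) (v : Fin (m+1) → ℤ) :
    ∑ j ∈ Finset.univ.erase (0 : Fin (m+1)), |v j| ≤ nv L v := by
  unfold nv
  rw [← Finset.add_sum_erase _ _ (Finset.mem_univ (0 : Fin (m+1))), g_zero]
  simp only [Nat.cast_zero, zero_mul, zero_add]
  refine Finset.sum_le_sum fun j hj => ?_
  have h1 := g_pos (m := m) hL (Finset.ne_of_mem_erase hj)
  have h2 : (1 : ℤ) ≤ g m L j := by exact_mod_cast h1
  nlinarith [abs_nonneg (v j)]

section dom
variable {L κ K : ℕ} {τ : Fin (m+1) → List (Fin (m+1))}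

theorem wt_le_length {L : ℕ} (w : List (Fin (m+1))) (C : ℕ) (h : ∀ i ∈ w, g m L i ≤ C) :
    wt L w ≤ w.length * C := by
  induction w with
  | nil => simp [wt_nil]
  | cons a w ih =>
    rw [wt_cons, List.length_cons, add_mul, one_mul, add_comm]
    exact Nat.add_le_add (ih fun i hi => h i (List.mem_cons_of_mem _ hi))
      (h a (List.mem_cons_self ..))

theorem wt_filter (L : ℕ) (w : List (Fin (m+1))) :
    wt L (w.filter (fun i => decide (i ≠ 0))) = wt L w := by
  induction w with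
  | nil => rfl
  | cons a w ih =>
    by_cases h : a = 0
    · subst h
      rw [List.filter_cons_of_neg (by simp), ih, wt_cons, g_zero, zero_add]
    · rw [List.filter_cons_of_pos (by simpa using h), wt_cons, wt_cons, ih]

theorem Dom.wt_img (h : Dom L κ K τ) (hL : 1 ≤ L) {j : Fin (m+1)} (hj : j ≠ 0) :
    2 * wt L (τ j) ≤ g m L j := by
  have h1 : 2 * L * wt L ((τ j).filter (fun i => decide (i ≠ 0))) ≤
      ((τ j).filter (fun i => decide (i ≠ 0))).length * g m L j := by
    have h2 : ∀ w : List (Fin (m+1)), (∀ i ∈ w, 2 * L * g m L i ≤ g m L j) →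
        2 * L * wt L w ≤ w.length * g m L j := by
      intro w
      induction w with
      | nil => intro _; simp [wt_nil]
      | cons a w ih =>
        intro hw
        rw [wt_cons, List.length_cons, mul_add, add_mul, one_mul, add_comm]
        exact Nat.add_le_add (ih fun i hi => hw i (List.mem_cons_of_mem _ hi))
          (hw a (List.mem_cons_self ..))
    exact h2 _ fun i hi => g_lt hL hj (h.tri j hj i (List.mem_of_mem_filter hi))
  rw [wt_filter] at h1
  have h3 : ((τ j).filter (fun i => decide (i ≠ 0))).length * g m L j ≤ L * g m L j :=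
    Nat.mul_le_mul_right _ (h.len j hj)
  have h4 : L * (2 * wt L (τ j)) ≤ L * g m L j := by
    calc L * (2 * wt L (τ j)) = 2 * L * wt L (τ j) := by ring
      _ ≤ _ := h1.trans h3
  exact Nat.le_of_mul_le_mul_left h4 (by omega)

theorem Dom.wt_img0 (h : Dom L κ K τ) (hL : 1 ≤ L) : wt L (τ 0) ≤ κ * (2 * L) ^ m := by
  rw [← wt_filter]
  exact (wt_le_length _ _ fun i _ => g_le hL i).trans (Nat.mul_le_mul_right _ h.non)

theorem Dom.wt_img_le (h : Dom L κ K τ) (hL : 1 ≤ L) (a : Fin (m+1)) :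
    wt L (τ a) ≤ (κ + 1) * (2 * L) ^ m := by
  by_cases ha : a = 0
  · rw [ha]
    exact (h.wt_img0 hL).trans (Nat.mul_le_mul_right _ (by omega))
  · have h1 := h.wt_img hL ha
    have h2 := g_le (m := m) hL a
    have h3 : (κ + 1) * (2 * L) ^ m = κ * (2 * L) ^ m + (2 * L) ^ m := by ring
    have h4 : 0 ≤ κ * (2 * L) ^ m := Nat.zero_le _
    omega

theorem inc_nonneg (τ : Fin (m+1) → List (Fin (m+1))) (i j : Fin (m+1)) : 0 ≤ inc τ i j := by
  unfold inc; positivity

/-- the matrix in terms of the weights -/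
theorem nv_mulVec (L : ℕ) (τ : Fin (m+1) → List (Fin (m+1))) (v : Fin (m+1) → ℤ) :
    nv L ((inc τ).mulVec v) ≤ ∑ j, |v j| * (wt L (τ j) : ℤ) := by
  have h1 : ∀ i, |(inc τ).mulVec v i| ≤ ∑ j, inc τ i j * |v j| := by
    intro i
    simp only [Matrix.mulVec, dotProduct]
    refine (Finset.abs_sum_le_sum_abs _ _).trans (Finset.sum_le_sum fun j _ => ?_)
    rw [abs_mul, abs_of_nonneg (inc_nonneg τ i j)]
  calc nv L ((inc τ).mulVec v) ≤ ∑ i, (g m L i : ℤ) * ∑ j, inc τ i j * |v j| :=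
        Finset.sum_le_sum fun i _ => mul_le_mul_of_nonneg_left (h1 i) (by positivity)
    _ = ∑ j, |v j| * ∑ i, (g m L i : ℤ) * inc τ i j := by
        simp only [Finset.mul_sum]
        rw [Finset.sum_comm]
        exact Finset.sum_congr rfl fun j _ => Finset.sum_congr rfl fun i _ => by ring
    _ = _ := by
        refine Finset.sum_congr rfl fun j _ => ?_
        rw [← nv_ab]
        unfold nv
        congr 1
        refine Finset.sum_congr rfl fun i _ => ?_
        rw [abs_of_nonneg (ab_nonneg _ _)]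
        rfl

theorem Dom.nv_mulVec (h : Dom L κ K τ) (hL : 1 ≤ L) (v : Fin (m+1) → ℤ) :
    2 * nv L ((inc τ).mulVec v) ≤ 2 * (|v 0| * wt L (τ 0)) + nv L v := by
  have h1 := Pool.Agent.Y316.Pisot.nv_mulVec L τ v
  rw [← Finset.add_sum_erase _ _ (Finset.mem_univ (0 : Fin (m+1)))] at h1
  have h2 : nv L v = ∑ j ∈ Finset.univ.erase (0 : Fin (m+1)), (g m L j : ℤ) * |v j| := by
    unfold nv
    rw [← Finset.add_sum_erase _ _ (Finset.mem_univ (0 : Fin (m+1))), g_zero]
    simp
  have h3 : 2 * ∑ j ∈ Finset.univ.erase (0 : Fin (m+1)), |v j| * (wt L (τ j) : ℤ) ≤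
      ∑ j ∈ Finset.univ.erase (0 : Fin (m+1)), (g m L j : ℤ) * |v j| := by
    rw [Finset.mul_sum]
    refine Finset.sum_le_sum fun j hj => ?_
    have h4 := h.wt_img hL (Finset.ne_of_mem_erase hj)
    have h5 : 2 * (wt L (τ j) : ℤ) ≤ g m L j := by exact_mod_cast h4
    nlinarith [abs_nonneg (v j)]
  rw [h2]
  linarith

end dom

end Pool.Agent.Y316.Pisot
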